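import Pool.Agent.Lib.KBlk.Defs

/-!
Families of polynomials on `[0, 1]` in the shifted Chebyshev basis. Row `a` of a table holds the
coefficients of index `a` of all members (the first one doubled), with an offset.
-/

namespace Pool.Agent.Lib.KRad

open Pool.Agent.Lib.KLA Pool.Agent.Lib.KBlk

noncomputable section

/-- Offset, number of rows, degree bound and size of the error, side conditions, rows. -/
structure RT where
  (K n N e : Nat)
  (ok : Bool)
  (f : Nat → Nat)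

/-- The larger number. -/
def mx (a b : Nat) : Nat := Nat.add a (Nat.sub b a)

def add (T U : RT) : RT :=
  ⟨Nat.add T.K U.K, mx T.n U.n, mx T.N U.N, Nat.add T.e U.e, bnd T.ok U.ok,
    fun a => Nat.add (T.f a) (U.f a)⟩

def sml (c : Nat) (T : RT) : RT :=
  ⟨Nat.mul c T.K, T.n, T.N, Nat.mul c T.e, T.ok, fun a => Nat.mul c (T.f a)⟩

def neg (W J : Nat) (T : RT) : RT :=
  (fun z : Nat => (⟨T.K, T.n, T.N, T.e, T.ok, fun a => Nat.sub z (T.f a)⟩ : RT))
    (Nat.mul (Nat.mul 2 T.K) (ones W J))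

/-- Times `4 X - 2`. -/
def st0 (T : RT) : RT :=
  ⟨Nat.mul 2 T.K, Nat.add T.n 1, Nat.add T.N 1, Nat.mul 2 T.e, T.ok, fun a =>
    Nat.add (Nat.rec (motive := fun _ => Nat) (T.f 1) (fun m _ => T.f m) a)
      (strict (Nat.add a 1) T.f)⟩

/-- Times `4 X`. -/
def st2 (T : RT) : RT :=
  ⟨Nat.mul 4 T.K, Nat.add T.n 1, Nat.add T.N 1, Nat.mul 4 T.e, T.ok, fun a =>
    Nat.add (Nat.add (Nat.rec (motive := fun _ => Nat) (T.f 1) (fun m _ => T.f m) a)
      (strict (Nat.add a 1) T.f)) (Nat.mul 2 (T.f a))⟩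

/-- `4 X (1 - X)` times the derivative. -/
def eul (W J : Nat) (T : RT) : RT :=
  (fun z : Nat => (⟨Nat.mul (Nat.mul 2 (Nat.add T.n 1)) T.K, Nat.add T.n 1, Nat.add T.N 1,
    Nat.mul (Nat.mul 2 T.N) T.e, T.ok, fun a =>
      Nat.rec (motive := fun _ => Nat) (Nat.add (Nat.mul 2 (T.f 1)) z)
        (fun m _ => Nat.sub (Nat.add (Nat.mul (Nat.add m 2) (strict (Nat.add m 2) T.f)) z)
          (Nat.mul m (T.f m))) a⟩ : RT))
    (Nat.mul (Nat.mul (Nat.mul 2 T.n) T.K) (ones W J))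

/-- Division by `2 ^ s`, rounded. -/
def rnT (W J s : Nat) (T : RT) : RT :=
  (fun K : Nat => (fun z M : Nat => (⟨K, T.n, mx T.N T.n,
    Nat.add (Nat.add (Nat.shiftRight T.e s) 1) T.n,
    bnd T.ok (bnd (Nat.ble (Nat.add s 1) W)
      (Nat.ble (Nat.add (Nat.mul 2 (Nat.shiftLeft K s)) 1) (Nat.shiftLeft 1 W))),
    fun a => Nat.land (Nat.shiftRight (Nat.add (T.f a) z) s) M⟩ : RT))
    (Nat.mul (Nat.sub (Nat.shiftLeft K s) T.K) (ones W J)) (msk W (Nat.sub W s) J))
    (Nat.add (Nat.shiftRight T.K s) 1)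

/-- The offset `2 ^ b`, if the entries are that small. -/
def tgt (W J b : Nat) (T : RT) : RT :=
  (fun y z M : Nat => (⟨Nat.shiftLeft 1 b, T.n, T.N, T.e,
    bnd T.ok (bnd (bnd (Nat.ble (Nat.add b 1) W)
      (Nat.ble (Nat.add T.K (Nat.shiftLeft 1 (Nat.add b 2))) (Nat.shiftLeft 1 W)))
      (allR (fun a => small (Nat.add (T.f a) y) z M) 0 T.n)),
    fun a => Nat.sub (Nat.add (T.f a) y) z⟩ : RT))
    (Nat.shiftLeft (ones W J) b) (Nat.mul T.K (ones W J)) (msk W (Nat.add b 1) J)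

/-- The sum of `f 0, ..., f (n - 1)`. -/
def sumF (f : Nat → Nat) (n : Nat) : Nat :=
  Nat.rec (motive := fun _ => Nat) 0 (fun m ih => Nat.add ih (f m)) n

/-- The vector with the digits `f 0, ..., f (n - 1)`. -/
def pack (V : Nat) (f : Nat → Nat) (n : Nat) : Nat :=
  sumF (fun m => Nat.shiftLeft (f m) (Nat.mul V m)) n

/-- The entries are below `2 ^ b`, and `x` plus the sum of their absolute values is at most the
entry of the vector `y`, which is at most `B`. -/
def l1 (W J b x B y : Nat) (T : RT) : Bool :=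
  (fun U : RT => bnd (bnd U.ok (bnd (Nat.ble 2 W) (Nat.ble
      (Nat.add (Nat.add (Nat.shiftLeft U.n b) (Nat.add U.n x)) B) (Nat.shiftLeft 1 (Nat.sub W 1)))))
    (small (Nat.add (sumF (fun a => vabs W b J (U.f a)) U.n) (Nat.mul
      (Nat.add (Nat.shiftLeft 1 (Nat.sub W 2)) (Nat.add U.n x)) (ones W J))) y
      (msk W (Nat.sub W 2) J))) (tgt W J b T)

/-- Row `a < n` is the vector `x a` (`m` entries with offset `Kx`) times the matrix `D`. -/
def mix (V W J m Kx K n N e : Nat) (ok : Bool) (x : Nat → Nat) (D : Rows) : RT :=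
  (fun E S : Nat => (fun z : Nat => (⟨E, n, N, e, bnd ok (Nat.ble
      (Nat.add (Nat.mul (Nat.mul 2 m) Kx) 2) (Nat.shiftLeft 1 V)),
    fun a => cnd (Nat.ble n a) z (vml V W J m Kx K E D S (x a))⟩ : RT)) (Nat.mul E (ones W J)))
    (Nat.mul m (Nat.mul Kx K)) D.sum

/-- Combinations of the single polynomials `G 0, ..., G (m - 1)`, with the rows of `D` as
coefficients. All have the offset `Kx`, at most `n` rows and errors within `N`, `e`. -/
def cmb (V W J m Kx K n N e : Nat) (G : Nat → RT) (D : Rows) : RT :=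
  mix V W J m Kx K n N (Nat.mul m (Nat.mul K e))
    (allR (fun i => bnd (bnd (G i).ok (Nat.beq (G i).K Kx))
      (bnd (Nat.ble (G i).n n) (bnd (Nat.ble (G i).N N) (Nat.ble (G i).e e)))) 0 m)
    (fun a => pack V (fun i => (G i).f a) m) D

/-- Substitution: row `a` of `U` holds the coefficients of index `a` of the images of the first
`16 c` basis polynomials, with errors `e` and norms `L`. -/
def sbs (V W J c Kx n N e L : Nat) (U : Rows) (T : RT) : RT :=
  mix V W J (Nat.mul 16 c) Kx (Nat.mul 2 T.K) n N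
    (Nat.add (Nat.mul (Nat.mul 16 c) (Nat.mul (Nat.mul 2 T.K) e)) (Nat.mul (Nat.mul 2 T.e) L))
    (bnd T.ok (bnd (Nat.ble T.n (Nat.mul 16 c)) (Nat.ble T.N (Nat.mul 16 c)))) U.get
    ((fun z : Nat => rgen (fun a => strict a fun a => Nat.rec (motive := fun _ => Nat)
      (Nat.add (T.f 0) z) (fun _ _ => Nat.mul 2 (T.f a)) a) c 0) (Nat.mul T.K (ones W J)))

/-- The `b` bits at the positions `s + V j`, `j < J`, in slots of `W` bits. -/
def sel (V b W J s x : Nat) : Nat :=
  rsl V W (Nat.add (Nat.div J 16) 1) (Nat.land (Nat.shiftRight x s) (msk V b J))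

/-- A stored table: the rows `g 0, ..., g (n - 1)` with offset `K`. -/
def lit (W J K n : Nat) (g : Nat → Nat) : RT :=
  (fun z : Nat => (⟨Nat.mul 2 K, n, 0, 0, true, fun a => cnd (Nat.ble n a) (Nat.mul 2 z)
    (Nat.rec (motive := fun _ => Nat) (Nat.mul 2 (g 0)) (fun _ _ => Nat.add (g a) z) a)⟩ : RT))
    (Nat.mul K (ones W J))

/-- The constant one, for a single member. -/
def one : RT := ⟨2, 1, 0, 0, true, fun a => Nat.rec (motive := fun _ => Nat) 4 (fun _ _ => 2) a⟩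

/-- Zero with offset `K`, for a single member. -/
def zer (K : Nat) : RT := ⟨K, 0, 0, 0, true, fun _ => K⟩

/-- Zero. -/
def zr : RT := ⟨0, 0, 0, 0, true, fun _ => 0⟩

/-- `g` applied `i` times. -/
def itr (g : RT → RT) (T : RT) (i : Nat) : RT :=
  Nat.rec (motive := fun _ => RT) T (fun _ ih => g ih) i

/-- Times `4 (1 - X)`. -/
def stm (W J : Nat) (T : RT) : RT := add (sml 2 T) (neg W J (st0 T))

/-- Times `256 (1 - X ^ 4)`. -/
def mq (W J : Nat) (T : RT) : RT := add (sml 256 T) (neg W J (itr st2 T 4))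

/-- `1024 (-a + b X ^ 4 - (1 + X + X ^ 2 + X ^ 3) X (1 - X) ∂)`. -/
def lop (W J a b : Nat) (T : RT) : RT :=
  (fun E : RT => add (add (st2 (add (st2 (add (st2 (add (st2 (sml (Nat.mul 4 b) T)) (sml 4 E)))
    (sml 16 E))) (sml 64 E))) (sml 256 E)) (sml (Nat.mul 1024 a) (neg W J T)))
    (neg W J (eul W J T))

/-- A three term recurrence `g (m + 2) = α m (4 X - 2) g (m + 1) - β m g m`. -/
def rec3 (W : Nat) (α β : Nat → Nat) (T0 T1 : RT) (m : Nat) : RT × RT :=
  Nat.rec (motive := fun _ => RT × RT) (T0, T1) (fun i ih =>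
    (ih.2, add (sml (α i) (st0 ih.2)) (sml (β i) (neg W 1 ih.1)))) m

end

end Pool.Agent.Lib.KRad
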