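import Mathlib

/-!
Shifted Chebyshev sums and polynomials with small coefficients.
-/

namespace Pool.Agent.Lib.KRad

open Polynomial Finset

noncomputable section

/-- The shifted Chebyshev polynomials. -/
def TS (a : ℕ) : ℝ[X] := (Chebyshev.T ℝ a).comp (2 * X - 1)

/-- `|a - 1|`. -/
def pr (a : ℕ) : ℕ := if a = 0 then 1 else a - 1

theorem TS_zero : TS 0 = 1 := by simp [TS]

theorem TS_mul (a : ℕ) : (4 * X - 2) * TS a = TS (pr a) + TS (a + 1) := by
  cases a with
  | zero =>
    simp [TS, pr]
    ring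
  | succ a =>
    have h := congrArg (·.comp (2 * X - 1)) (Chebyshev.T_add_two ℝ a)
    simp only [sub_comp, mul_comp, X_comp, ofNat_comp] at h
    simp only [TS, pr, Nat.succ_ne_zero, if_false, Nat.add_sub_cancel]
    push_cast at h ⊢
    rw [show (a : ℤ) + 1 + 1 = a + 2 by ring, h]
    ring

theorem TS_eul (a : ℕ) :
    4 * (X * (1 - X) * derivative (TS a)) = C (a : ℝ) * (TS (pr a) - TS (a + 1)) := by
  cases a with
  | zero => simp [TS_zero]
  | succ a =>
    have h := congrArg (·.comp (2 * X - 1))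
      (Chebyshev.one_sub_X_sq_mul_derivative_T_eq_poly_in_T (R := ℝ) a)
    have h1 := TS_mul (a + 1)
    simp only [sub_comp, mul_comp, X_comp, one_comp, pow_comp, add_comp, intCast_comp] at h
    simp only [TS, pr, Nat.succ_ne_zero, if_false, Nat.add_sub_cancel, derivative_comp] at h1 ⊢
    simp only [derivative_sub, derivative_mul, derivative_ofNat, derivative_X, derivative_one,
      map_add, map_one, map_natCast, Nat.cast_add, Nat.cast_one, Int.cast_natCast] at h h1 ⊢
    linear_combination 2 * h - (a + 1 : ℝ[X]) * h1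

theorem TS_eval (a : ℕ) (x : ℝ) : (TS a).eval ((1 + Real.cos x) / 2) = Real.cos (a * x) := by
  have h := Chebyshev.T_real_cos x a
  simp only [TS, eval_comp, eval_sub, eval_mul, eval_ofNat, eval_X, eval_one]
  rw [show 2 * ((1 + Real.cos x) / 2) - 1 = Real.cos x by ring, h, Int.cast_natCast]

/-- Polynomials of degree below `N` whose coefficients have small `l1` norm. -/
inductive Sm (N : ℕ) : ℝ → ℝ[X] → Prop
  | base (a : ℕ) (ha : a < N) (c : ℝ) : Sm N |c| (C c * TS a)
  | zero : Sm N 0 0
  | add {e e' : ℝ} {F G : ℝ[X]} : Sm N e F → Sm N e' G → Sm N (e + e') (F + G)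
  | mono {e e' : ℝ} {F : ℝ[X]} : Sm N e F → e ≤ e' → Sm N e' F

variable {N N' n m : ℕ} {e e' : ℝ} {F G : ℝ[X]} {c d : ℕ → ℝ}

theorem Sm.congr (h : Sm N e F) (h1 : G = F) (h2 : e ≤ e') : Sm N e' G := h1 ▸ h.mono h2

theorem Sm.cmul (h : Sm N e F) (r : ℝ) : Sm N (|r| * e) (C r * F) := by
  induction h with
  | base a ha c => exact (Sm.base a ha (r * c)).congr (by rw [C_mul, mul_assoc]) (abs_mul r c).le
  | zero => simpa using Sm.zero
  | add _ _ h1 h2 => simpa only [mul_add] using h1.add h2
  | mono _ h h1 => exact h1.mono (mul_le_mul_of_nonneg_left h (abs_nonneg r))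

theorem Sm.map (h : Sm N e F) (L : ℝ[X] → ℝ[X]) (h1 : ∀ F G, L (F + G) = L F + L G)
    (h2 : ∀ r F, L (C r * F) = C r * L F) {κ : ℝ} (hκ : 0 ≤ κ) (hL : ∀ a < N, Sm N' κ (L (TS a))) :
    Sm N' (κ * e) (L F) := by
  induction h with
  | base a ha c => exact ((hL a ha).cmul c).congr (h2 _ _) (mul_comm _ _).le
  | zero => simpa using (Sm.zero (N := N')).congr (by simpa using h2 0 0) le_rfl
  | add _ _ h3 h4 => exact (h3.add h4).congr (h1 _ _) (mul_add _ _ _).ge
  | mono _ h h3 => exact h3.mono (mul_le_mul_of_nonneg_left h hκ)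

theorem Sm.one {a : ℕ} (ha : a < N) : Sm N 1 (TS a) := by simpa using Sm.base a ha 1

theorem Sm.deg (h : Sm N e F) (hN : N ≤ N') : Sm N' e F := by
  simpa using h.map id (fun _ _ => rfl) (fun _ _ => rfl) zero_le_one fun a ha => .one (ha.trans_le hN)

theorem Sm.neg (h : Sm N e F) : Sm N e (-F) := by simpa using h.cmul (-1)

theorem Sm.sum {ι : Type} (s : Finset ι) {e : ι → ℝ} {F : ι → ℝ[X]}
    (h : ∀ i ∈ s, Sm N (e i) (F i)) : Sm N (∑ i ∈ s, e i) (∑ i ∈ s, F i) := by
  classical
  induction s using Finset.induction_on with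
  | empty => exact .zero
  | insert a s ha ih =>
    rw [sum_insert ha, sum_insert ha]
    exact (h a (mem_insert_self a s)).add (ih fun i hi => h i (mem_insert_of_mem hi))

theorem Sm.abs_eval (h : Sm N e F) (x : ℝ) : |F.eval ((1 + Real.cos x) / 2)| ≤ e := by
  induction h with
  | base a _ c =>
    rw [eval_mul, eval_C, TS_eval, abs_mul]
    exact mul_le_of_le_one_right (abs_nonneg c) (Real.abs_cos_le_one _)
  | zero => simp
  | add _ _ h1 h2 =>
    rw [eval_add]
    exact (abs_add_le _ _).trans (add_le_add h1 h2)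
  | mono _ h h1 => exact h1.trans h

theorem pr_lt {a : ℕ} (h : a < N) : pr a < N + 1 := by
  unfold pr
  split_ifs <;> omega

theorem Sm.st0 (h : Sm N e F) : Sm (N + 1) (2 * e) ((4 * X - 2) * F) :=
  h.map (fun F => (4 * X - 2) * F) (mul_add _) (fun _ _ => mul_left_comm _ _ _) zero_le_two
    fun a ha => ((Sm.one (pr_lt ha)).add (.one (by omega))).congr (TS_mul a) one_add_one_eq_two.le

theorem Sm.eul (h : Sm N e F) : Sm (N + 1) (2 * N * e) (4 * (X * (1 - X) * derivative F)) :=
  h.map (fun F => 4 * (X * (1 - X) * derivative F)) (fun _ _ => by rw [derivative_add]; ring)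
    (fun _ _ => by rw [derivative_C_mul]; ring) (by positivity) fun a ha =>
    (((Sm.one (pr_lt ha)).add (Sm.one (by omega : a + 1 < N + 1)).neg).cmul a).congr
      (by rw [TS_eul, sub_eq_add_neg]) (by
        have : (a : ℝ) ≤ N := by exact_mod_cast ha.le
        rw [Nat.abs_cast]
        linarith)

/-- The weight of a coefficient. -/
def wt (a : ℕ) : ℝ := if a = 0 then 1 / 2 else 1

/-- The sum with the first term halved. -/
def pol (n : ℕ) (c : ℕ → ℝ) : ℝ[X] := ∑ a ∈ range n, C (wt a * c a) * TS a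

theorem pol_congr (h : ∀ a < n, c a = d a) : pol n c = pol n d :=
  sum_congr rfl fun a ha => by rw [h a (mem_range.1 ha)]

theorem pol_ext (h : ∀ a, n ≤ a → c a = 0) (hm : n ≤ m) : pol m c = pol n c :=
  (sum_subset (range_subset_range.2 hm) fun a _ ha => by
    rw [h a (by simpa using ha), mul_zero, C_0, zero_mul]).symm

theorem pol_add : pol n (fun a => c a + d a) = pol n c + pol n d := by
  simp only [pol, mul_add, C_add, add_mul, sum_add_distrib]

theorem pol_sum {ι : Type} (s : Finset ι) (r : ι → ℝ) (c : ι → ℕ → ℝ) :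
    pol n (fun a => ∑ i ∈ s, c i a * r i) = ∑ i ∈ s, C (r i) * pol n (c i) := by
  simp only [pol, mul_sum, map_sum, sum_mul]
  rw [sum_comm]
  exact sum_congr rfl fun i _ => sum_congr rfl fun a _ => by
    simp only [C_mul]
    ring

theorem pol_cmul (r : ℝ) : pol n (fun a => r * c a) = C r * pol n c := by
  simp only [pol, mul_sum]
  exact sum_congr rfl fun a _ => by
    simp only [C_mul]
    ring

theorem sm_pol : Sm n (∑ a ∈ range n, |c a|) (pol n c) :=
  (Sm.sum _ fun a ha => .base a (mem_range.1 ha) _).mono (sum_le_sum fun a _ => by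
    rw [abs_mul]
    refine mul_le_of_le_one_left (abs_nonneg _) ?_
    unfold wt
    split_ifs <;> norm_num [abs_of_pos])

theorem pol_succ : pol (n + 1 + 1) c = pol (n + 1) c + C (c (n + 1)) * TS (n + 1) := by
  rw [pol, sum_range_succ, wt, if_neg n.succ_ne_zero, one_mul, pol]

theorem pol_one : pol (0 + 1) c = C (1 / 2 : ℝ) * C (c 0) := by
  simp [pol, wt, TS_zero]

theorem C_half : C (1 / 2 : ℝ) * 2 = 1 := by
  rw [← map_ofNat C 2, ← C_mul]
  norm_num

theorem pol_st0 (h : ∀ a, n ≤ a → c a = 0) :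
    (4 * X - 2) * pol n c = pol (n + 1) fun a => c (pr a) + c (a + 1) := by
  have A : ∀ n, (4 * X - 2) * pol (n + 1) c = pol (n + 1) (fun a => c (pr a) + c (a + 1))
      - C (c (n + 1)) * TS n + C (c n) * TS (n + 1) := fun n => by
    induction n with
    | zero =>
      have h1 := TS_mul 0
      simp only [pol_one, pr, if_true, TS_zero, zero_add, C_add] at h1 ⊢
      linear_combination C (1 / 2 : ℝ) * C (c 0) * h1 + (C (c 0) * TS 1 - C (c 1)) * C_half
    | succ n ih =>
      have h1 := TS_mul (n + 1)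
      simp only [pol_succ, pr, Nat.succ_ne_zero, if_false, Nat.add_sub_cancel, C_add] at h1 ih ⊢
      linear_combination ih + C (c (n + 1)) * h1
  rw [← pol_ext h n.le_succ, A, h n le_rfl, h _ n.le_succ]
  simp

theorem pol_eul (h : ∀ a, n ≤ a → c a = 0) : 4 * (X * (1 - X) * derivative (pol n c)) =
    pol (n + 1) fun a => (a + 1) * c (a + 1) - (a - 1) * c (pr a) := by
  have A : ∀ n : ℕ, 4 * (X * (1 - X) * derivative (pol (n + 1) c)) =
      pol (n + 1) (fun a => (a + 1) * c (a + 1) - (a - 1) * c (pr a))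
        - (n + 1 : ℝ[X]) * C (c (n + 1)) * TS n - (n : ℝ[X]) * C (c n) * TS (n + 1) := fun n => by
    induction n with
    | zero =>
      simp only [pol_one, pr, if_true, TS_zero, zero_add, Nat.cast_zero, zero_sub, one_mul,
        neg_mul, sub_neg_eq_add, C_add, derivative_mul, derivative_C]
      linear_combination -C (c 1) * C_half
    | succ n ih =>
      have h1 := TS_eul (n + 1)
      simp only [pol_succ, pr, Nat.succ_ne_zero, if_false, Nat.add_sub_cancel, C_add, C_sub, C_mul,
        C_1, map_natCast, Nat.cast_add, Nat.cast_one, derivative_add, derivative_C_mul] at h1 ih ⊢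
      linear_combination ih + C (c (n + 1)) * h1
  rw [← pol_ext h n.le_succ, A, h n le_rfl, h _ n.le_succ]
  simp

end

end Pool.Agent.Lib.KRad
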