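import Pool.Agent.Lib.KBlk.Sem
import Pool.Agent.Lib.KRad.Defs
import Pool.Agent.Lib.KRad.Sm

/-!
The meaning of the operations on tables.
-/

namespace Pool.Agent.Lib.KRad

open Polynomial Finset Pool.Agent.Lib.KLA Pool.Agent.Lib.KBlk

noncomputable section

/-- The table `T` holds the polynomials `F j`, `j < J`. -/
def Rep (W J : ℕ) (T : RT) (F : ℕ → ℝ[X]) : Prop :=
  T.ok = true → ∃ c : ℕ → ℕ → ℤ, (∀ a, Vec W J T.K (T.f a) (c a)) ∧
    (∀ a, T.n ≤ a → ∀ j < J, c a j = 0) ∧ ∀ j < J, Sm T.N T.e (F j - pol T.n fun a => c a j)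

variable {W J : ℕ} {T U : RT} {F G : ℕ → ℝ[X]}

theorem Rep.congr (h : Rep W J T F) (e : ∀ j < J, G j = F j) : Rep W J T G := fun hk =>
  let ⟨c, h1, h2, h3⟩ := h hk
  ⟨c, h1, h2, fun j hj => e j hj ▸ h3 j hj⟩

theorem mx_eq (a b : ℕ) : mx a b = max a b := by
  simp only [mx, Nat.add_eq, Nat.sub_eq]
  omega

theorem Rep.add (h : Rep W J T F) (h' : Rep W J U G) : Rep W J (add T U) fun j => F j + G j :=
  fun hk => by
  obtain ⟨k1, k2⟩ := (bnd_iff _ _).1 hk
  obtain ⟨c, h1, h2, h3⟩ := h k1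
  obtain ⟨d, g1, g2, g3⟩ := h' k2
  refine ⟨fun a j => c a j + d a j, fun a => (h1 a).add (g1 a), fun a ha j hj => ?_, fun j hj => ?_⟩
  · simp only [KRad.add, mx_eq, max_le_iff] at ha
    simp only [h2 a ha.1 j hj, g2 a ha.2 j hj, add_zero]
  · simp only [KRad.add, mx_eq, Int.cast_add, pol_add, Nat.add_eq, Nat.cast_add]
    rw [pol_ext (fun a ha => by rw [h2 a ha j hj, Int.cast_zero]) (le_max_left _ _),
      pol_ext (fun a ha => by rw [g2 a ha j hj, Int.cast_zero]) (le_max_right _ _),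
      add_sub_add_comm]
    exact ((h3 j hj).deg (le_max_left _ _)).add ((g3 j hj).deg (le_max_right _ _))

theorem Rep.sml (h : Rep W J T F) (r : ℕ) : Rep W J (sml r T) fun j => C (r : ℝ) * F j :=
  fun hk => by
  obtain ⟨c, h1, h2, h3⟩ := h hk
  refine ⟨fun a j => r * c a j, fun a => (h1 a).smul r, fun a ha j hj => ?_, fun j hj => ?_⟩
  · simp only [h2 a ha j hj, mul_zero]
  · simp only [KRad.sml, Int.cast_mul, Int.cast_natCast, pol_cmul, ← mul_sub, Nat.mul_eq,
      Nat.cast_mul]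
    simpa using (h3 j hj).cmul r

theorem Rep.neg (h : Rep W J T F) (hW : 0 < W) : Rep W J (neg W J T) fun j => -F j := fun hk => by
  obtain ⟨c, h1, h2, h3⟩ := h hk
  refine ⟨fun a j => -c a j, fun a => (h1 a).neg hW, fun a ha j hj => ?_, fun j hj => ?_⟩
  · simp only [h2 a ha j hj, neg_zero]
  · have := pol_cmul (n := T.n) (c := fun a => c a j) (-1)
    simp only [neg_mul, one_mul, map_neg, map_one] at this
    simp only [KRad.neg, Int.cast_neg, this, ← neg_sub']
    exact (h3 j hj).neg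

theorem rec_pr (f : ℕ → ℕ) (a : ℕ) :
    Nat.rec (motive := fun _ => ℕ) (f 1) (fun m _ => f m) a = f (pr a) := by
  cases a <;> rfl

theorem pr_ge {n a : ℕ} (h : n + 1 ≤ a) : n ≤ pr a := by
  unfold pr
  split_ifs <;> omega

theorem Rep.st0 (h : Rep W J T F) : Rep W J (st0 T) fun j => (4 * X - 2) * F j := fun hk => by
  obtain ⟨c, h1, h2, h3⟩ := h hk
  refine ⟨fun a j => c (pr a) j + c (a + 1) j, fun a => ?_, fun a ha j hj => ?_, fun j hj => ?_⟩
  · simpa only [KRad.st0, rec_pr, strict_eq, Nat.mul_eq, two_mul, Nat.add_eq] using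
      (h1 (pr a)).add (h1 (a + 1))
  · have ha : T.n + 1 ≤ a := ha
    simp only [h2 _ (pr_ge ha) j hj, h2 (a + 1) (by omega) j hj, add_zero]
  · simp only [KRad.st0, Int.cast_add, Nat.add_eq, Nat.mul_eq, Nat.cast_mul, Nat.cast_ofNat]
    rw [← pol_st0 (c := fun a => c a j) fun a ha => by rw [h2 a ha j hj, Int.cast_zero], ← mul_sub]
    exact (h3 j hj).st0

theorem Rep.st2 (h : Rep W J T F) : Rep W J (st2 T) fun j => 4 * X * F j := fun hk => by
  obtain ⟨c, h1, h2, h3⟩ := h.st0.add (h.sml 2) ((bnd_iff _ _).2 ⟨hk, hk⟩)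
  have e1 : ∀ x : ℕ, mx (Nat.add x 1) x = Nat.add x 1 := fun x => by simp [mx_eq]
  have e2 : ∀ x : ℕ, Nat.add (Nat.mul 2 x) (Nat.mul 2 x) = Nat.mul 4 x := fun x => by
    simp only [Nat.add_eq, Nat.mul_eq]
    ring
  simp only [KRad.add, KRad.st0, KRad.sml, e1, e2] at h1 h2 h3
  refine ⟨c, h1, h2, fun j hj => (h3 j hj).congr ?_ le_rfl⟩
  simp only [KRad.st2, Nat.cast_ofNat, map_ofNat]
  ring

theorem Rep.eul (h : Rep W J T F) (hW : 0 < W) :
    Rep W J (eul W J T) fun j => 4 * (X * (1 - X) * derivative (F j)) := fun hk => by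
  obtain ⟨c, h1, h2, h3⟩ := h hk
  have hb : ∀ a : ℕ, ∀ j < J, (a : ℤ) * |c a j| ≤ T.n * T.K := fun a j hj => by
    rcases le_or_gt T.n a with ha | ha
    · rw [h2 a ha j hj, abs_zero, mul_zero]
      positivity
    · exact mul_le_mul (by exact_mod_cast ha.le) ((h1 a).2 j hj) (abs_nonneg _) (by positivity)
  refine ⟨fun a j => (a + 1) * c (a + 1) j - (a - 1) * c (pr a) j, fun a => ?_,
    fun a ha j hj => ?_, fun j hj => ?_⟩
  · cases a with
    | zero =>
      have := ((h1 1).smul 2).more hW (2 * T.n * T.K)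
      rw [show 2 * T.K + 2 * T.n * T.K = 2 * (T.n + 1) * T.K by ring] at this
      exact this.congr fun j _ => by simp [pr, two_mul]
    | succ m =>
      refine vec_of (E := 2 * (T.n + 1) * T.K) ?_ fun j hj => ?_
      · simp only [strict_eq, Nat.add_eq, Nat.mul_eq, Nat.cast_add, Nat.cast_mul, (h1 _).1,
          ← pk_const hW, pk_mul, pk_add, pk_sub, pr, Nat.succ_ne_zero, if_false,
          Nat.add_sub_cancel]
        exact pk_congr fun j _ => by push_cast; ring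
      · have t1 := hb (m + 2) j hj
        have t2 := hb m j hj
        simp only [pr, Nat.succ_ne_zero, if_false, Nat.add_sub_cancel]
        refine (abs_sub _ _).trans ?_
        rw [abs_mul, abs_mul, abs_of_nonneg (by positivity), Nat.cast_add, Nat.cast_one,
          add_sub_cancel_right, Nat.abs_cast]
        push_cast at t1 ⊢
        nlinarith [Int.natCast_nonneg T.K]
  · have ha : T.n + 1 ≤ a := ha
    simp only [h2 _ (pr_ge ha) j hj, h2 (a + 1) (by omega) j hj, mul_zero, sub_zero]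
  · simp only [KRad.eul, Int.cast_sub, Int.cast_mul, Int.cast_add, Int.cast_natCast, Int.cast_one,
      Nat.add_eq, Nat.mul_eq, Nat.cast_mul, Nat.cast_ofNat]
    rw [← pol_eul (c := fun a => c a j) fun a ha => by rw [h2 a ha j hj, Int.cast_zero],
      ← mul_sub, ← mul_sub, ← derivative_sub]
    exact (h3 j hj).eul

theorem Rep.rnT (h : Rep W J T F) (s : ℕ) :
    Rep W J (rnT W J s T) fun j => C (1 / 2 ^ s : ℝ) * F j := fun hk => by
  simp only [KRad.rnT, bnd_iff, Nat.ble_eq, Nat.add_eq, Nat.mul_eq, shl_eq, shr_eq, one_mul] at hk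
  obtain ⟨c, h1, h2, h3⟩ := h hk.1
  have hp : 0 < 2 ^ s := by positivity
  have hK := Nat.lt_div_mul_add (a := T.K) hp
  refine ⟨fun a j => c a j / 2 ^ s, fun a => ?_, fun a ha j hj => ?_, fun j hj => ?_⟩
  · have t1 := (h1 a).more (by omega) ((T.K / 2 ^ s + 1) * 2 ^ s - T.K)
    rw [show T.K + ((T.K / 2 ^ s + 1) * 2 ^ s - T.K) = 2 ^ s * (T.K / 2 ^ s + 1) by
      rw [Nat.add_sub_cancel' (by nlinarith), mul_comm]] at t1
    simpa only [KRad.rnT, rnd, Nat.add_eq, Nat.mul_eq, Nat.sub_eq, shl_eq, shr_eq, mul_zero,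
      zero_add] using
      t1.rnd (d := 0) (q := J) (by omega) (by rw [mul_comm (2 ^ s)]; exact hk.2.2) (by omega)
  · simp only [h2 a ha j hj, Int.zero_ediv]
  · have t1 := ((h3 j hj).cmul (1 / 2 ^ s)).deg (le_max_left T.N T.n)
    have t2 := (sm_pol (n := T.n) (c := fun a => 1 / 2 ^ s * (c a j : ℝ) + -1 *
      ((c a j / 2 ^ s : ℤ) : ℝ))).deg (le_max_right T.N T.n)
    simp only [KRad.rnT, mx_eq, Nat.add_eq, shr_eq]
    refine (t1.add t2).congr ?_ ?_
    · simp only [pol_add, pol_cmul, map_neg, map_one]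
      ring
    · have t3 : (T.e : ℝ) ≤ ((T.e / 2 ^ s : ℕ) + 1) * 2 ^ s := by
        have := (Nat.lt_div_mul_add (a := T.e) hp).le
        rw [add_one_mul]
        exact_mod_cast this
      push_cast
      refine add_le_add ?_ ((sum_const_le (c := 1) fun a _ => ?_).trans (mul_one _).le)
      · rw [abs_of_pos (by positivity), one_div, inv_mul_le_iff₀ (by positivity), mul_comm]
        exact t3
      · rw [neg_one_mul, ← sub_eq_add_neg, abs_sub_comm, one_div, inv_mul_eq_div]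
        exact ediv_err _ _

theorem tgt_vec {b : ℕ} {c : ℕ → ℕ → ℤ} (hk : (tgt W J b T).ok = true) {a : ℕ}
    (h : Vec W J T.K (T.f a) (c a)) (h0 : T.n ≤ a → ∀ j < J, c a j = 0) :
    Vec W J (2 ^ b) ((tgt W J b T).f a) (c a) ∧ ∀ j < J, c a j < 2 ^ b := by
  simp only [tgt, bnd_iff, Nat.ble_eq, Nat.add_eq, shl_eq, one_mul] at hk
  obtain ⟨-, ⟨k1, k2⟩, k3⟩ := hk
  have hW : 0 < W := by omega
  have e : ((T.f a + ones W J * 2 ^ b : ℕ) : ℤ) - (Nat.mul T.K (ones W J) : ℕ) =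
      pk W J fun j => c a j + (2 ^ b : ℕ) := by
    simp only [Nat.mul_eq, Nat.cast_add, Nat.cast_mul, h.1, mul_comm (ones W J : ℤ), ← pk_const hW,
      pk_add, pk_sub]
    exact pk_congr fun j _ => by ring
  have hb : ∀ j < J, |c a j| ≤ (2 ^ b : ℕ) ∧ c a j < 2 ^ b := fun j hj => by
    rcases le_or_gt T.n a with ha | ha
    · rw [h0 ha j hj]
      exact ⟨by simp, by positivity⟩
    · have t := small_sound hW k1 (allR_spec k3 a (Nat.zero_le a) (by omega)) e (fun j hj => by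
        have t1 := h.2 j hj
        have t2 : (T.K : ℤ) + 2 ^ (b + 2) ≤ 2 ^ W := by exact_mod_cast k2
        have t3 := abs_add_le (c a j) (2 ^ b : ℕ)
        have t4 : (0 : ℤ) < 2 ^ b := by positivity
        rw [Nat.abs_cast] at t3
        push_cast at t3 ⊢
        rw [pow_succ] at *
        linarith [pow_succ (2 : ℤ) b]) j hj
      push_cast at t ⊢
      rw [pow_succ] at t
      exact ⟨abs_le.2 ⟨by linarith [t.1], by linarith [t.2]⟩, by linarith [t.2]⟩
  exact ⟨by simpa only [tgt, Nat.add_eq, shl_eq] using vec_of e fun j hj => (hb j hj).1,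
    fun j hj => (hb j hj).2⟩

theorem Rep.tgt (h : Rep W J T F) (b : ℕ) : Rep W J (tgt W J b T) F := fun hk => by
  obtain ⟨c, h1, h2, h3⟩ := h ((bnd_iff _ _).1 hk).1
  refine ⟨c, fun a => ?_, h2, h3⟩
  simpa only [KRad.tgt, shl_eq, one_mul] using (tgt_vec hk (h1 a) (h2 a)).1

theorem sumF_eq (f : ℕ → ℕ) : ∀ n, sumF f n = ∑ a ∈ range n, f a
  | 0 => rfl
  | n + 1 => by
    rw [sum_range_succ, ← sumF_eq f n]
    rfl

theorem l1_sound {b x B y : ℕ} {d : ℕ → ℤ} (h : l1 W J b x B y T = true) (hy : (y : ℤ) = pk W J d)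
    (hd : ∀ j < J, 0 ≤ d j ∧ d j ≤ B) : T.ok = true ∧ ∀ v : ℕ → ℕ → ℤ,
    (∀ a < T.n, Vec W J T.K (T.f a) (v a)) → ∀ j < J, ∑ a ∈ range T.n, |v a j| + x ≤ d j := by
  simp only [l1, bnd_iff, Nat.ble_eq, Nat.add_eq, Nat.mul_eq, Nat.sub_eq, shl_eq, one_mul,
    sumF_eq] at h
  obtain ⟨⟨k1, k2, k3⟩, k4⟩ := h
  refine ⟨((bnd_iff _ _).1 k1).1, fun v hv j hj => ?_⟩
  have hb : b + 1 ≤ W := by
    simp only [tgt, bnd_iff, Nat.ble_eq, Nat.add_eq] at k1
    exact k1.2.1.1
  have t := fun a (ha : a ∈ range T.n) =>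
    have t := tgt_vec k1 (hv a (mem_range.1 ha)) fun h => absurd (mem_range.1 ha) (by omega)
    vabs_sound t.1 t.2 hb
  choose! u hu hu' using t
  obtain ⟨w, rfl⟩ : ∃ w, W = w + 2 := ⟨W - 2, by omega⟩
  have t2 := small_sound (v := fun j => ∑ a ∈ range T.n, u a j + (2 ^ w + (T.n + x)) - d j)
    (by omega) (by omega) k4 (by
      rw [hy, ← pk_sub, ← pk_add, pk_const (by omega), ← pk_sum, ← sum_congr rfl hu]
      push_cast
      rfl) (fun j hj => by
      have t3 : ((T.n : ℤ)) * 2 ^ b + (T.n + x) + B ≤ 2 ^ (w + 1) := by exact_mod_cast k3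
      have t4 := sum_le_card_nsmul (range T.n) (fun a => u a j) (2 ^ b) fun a ha =>
        (hu' a ha j hj).2.1.le
      have t5 : 0 ≤ ∑ a ∈ range T.n, u a j := sum_nonneg fun a ha => (hu' a ha j hj).1
      have t6 : (0 : ℤ) ≤ T.n * 2 ^ b ∧ (0 : ℤ) ≤ T.n + x ∧ (0 : ℤ) < 2 ^ w :=
        ⟨by positivity, by positivity, by positivity⟩
      rw [card_range, nsmul_eq_mul] at t4
      rw [Nat.add_sub_cancel, pow_succ, pow_succ, ← le_sub_iff_add_le, abs_le]
      rw [pow_succ] at t3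
      constructor <;> linarith [hd j hj, Int.natCast_nonneg B]) j hj
  have t3 := sum_le_sum fun a ha => (hu' a ha j hj).2.2.2
  rw [sum_add_distrib, sum_const, card_range, nsmul_eq_mul, mul_one] at t3
  rw [Nat.add_sub_cancel] at t2
  linarith [t2.2]

theorem Rep.sm {b B y : ℕ} {d : ℕ → ℤ} (h : Rep W J T F) (hl : l1 W J b T.e B y T = true)
    (hy : (y : ℤ) = pk W J d) (hd : ∀ j < J, 0 ≤ d j ∧ d j ≤ B) {j : ℕ} (hj : j < J) :
    Sm (max T.N T.n) (d j) (F j) := by
  obtain ⟨k1, k2⟩ := l1_sound hl hy hd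
  obtain ⟨v, h1, -, h3⟩ := h k1
  refine ((sm_pol.deg (le_max_right _ _)).add ((h3 j hj).deg (le_max_left _ _))).congr
    (add_sub_cancel _ _).symm ?_
  exact_mod_cast k2 v (fun a _ => h1 a) j hj

theorem mix_vec {V m Kx K n N e : ℕ} {ok : Bool} {x : ℕ → ℕ} {D : Rows} {g c : ℕ → ℕ → ℤ}
    (hk : (mix V W J m Kx K n N e ok x D).ok = true) (hW : 0 < W)
    (hx : ∀ a < n, Vec V m Kx (x a) (g a)) (hD : Mat W J K m D c) (a : ℕ) :
    Vec W J (mix V W J m Kx K n N e ok x D).K ((mix V W J m Kx K n N e ok x D).f a)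
      fun j => if a < n then ∑ k ∈ range m, g a k * c k j else 0 := by
  simp only [mix, bnd_iff, Nat.ble_eq, Nat.add_eq, Nat.mul_eq, shl_eq, one_mul, cnd_eq] at hk ⊢
  by_cases ha : a < n
  · simp only [ha, if_true, if_neg ha.not_ge]
    exact vml_sound hW (hx a ha) hD rfl (by omega) fun j hj => by
      exact_mod_cast abs_sum_mul_le (hx a ha).2 fun k hk => (hD.2 k hk).2 j hj
  · simp only [ha, if_false, if_pos (not_lt.1 ha)]
    refine ⟨?_, fun _ _ => by positivity⟩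
    simp only [zero_add, pk_const hW, Nat.cast_mul]

theorem pack_eq (V : ℕ) (f : ℕ → ℕ) (n : ℕ) : (pack V f n : ℤ) = pk V n fun i => f i := by
  simp only [pack, sumF_eq, pk, shl_eq, Nat.mul_eq]
  push_cast
  rfl

theorem Rep.cmb {V Wx m Kx K n N e : ℕ} {G : ℕ → RT} {g : ℕ → ℝ[X]} {D : Rows} {c : ℕ → ℕ → ℤ}
    (hW : 0 < W) (hG : ∀ i < m, Rep Wx 1 (G i) fun _ => g i) (hD : Mat W J K m D c) :
    Rep W J (cmb V W J m Kx K n N e G D) fun j => ∑ i ∈ range m, C (c i j : ℝ) * g i := fun hk => by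
  have k1 := fun i (hi : i < m) => allR_spec ((bnd_iff _ _).1 hk).1 i (Nat.zero_le i) (by omega)
  simp only [bnd_iff, Nat.ble_eq, Nat.beq_eq] at k1
  choose! u h1 h2 h3 using fun i hi => hG i hi (k1 i hi).1.1
  refine ⟨_, mix_vec (g := fun a i => u i a 0) hk hW (fun a _ => ⟨?_, fun i hi => ?_⟩) hD,
    fun a ha j _ => if_neg (not_lt.2 ha), fun j hj => ?_⟩
  · rw [pack_eq]
    exact pk_congr fun i hi => by simpa [pk, (k1 i hi).1.2] using (h1 i hi a).1
  · exact (k1 i hi).1.2 ▸ (h1 i hi a).2 0 one_pos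
  · change Sm N (m * (K * e) : ℕ) (_ - pol n _)
    rw [pol_congr (d := fun a => ∑ i ∈ range m, (u i a 0 : ℝ) * c i j) fun a ha => by
      simp [ha], pol_sum, ← sum_sub_distrib]
    refine (Sm.sum _ fun i hi => ?_).mono (sum_const_le (c := K * e) (fun _ _ => le_rfl) |>.trans
      (by push_cast; rfl))
    have hi := mem_range.1 hi
    rw [← mul_sub, pol_ext (fun a ha => by rw [h2 i hi a ha 0 one_pos, Int.cast_zero])
      (k1 i hi).2.1]
    refine (((h3 i hi 0 one_pos).deg (k1 i hi).2.2.1).cmul _).mono (mul_le_mul ?_ ?_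
      (by positivity) (by positivity))
    · exact_mod_cast (hD.2 i hi).2 j hj
    · exact_mod_cast (k1 i hi).2.2.2

/-- The rows of `U` hold `σ` times the first `m` basis polynomials composed with `q`. -/
def Sub (V m Kx n N e L : ℕ) (U : Rows) (σ : ℝ) (q : ℝ[X]) : Prop :=
  ∃ u : ℕ → ℕ → ℤ, (∀ a < n, Vec V m Kx (U.get a) (u a)) ∧ ∀ k < m,
    Sm N e (C σ * (TS k).comp q - pol n fun a => u a k) ∧ Sm N L (C σ * (TS k).comp q)

theorem Rep.sbs {V c Kx n N e L : ℕ} {U : Rows} {σ : ℝ} {q : ℝ[X]} (h : Rep W J T F) (hW : 0 < W)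
    (hU : Sub V (16 * c) Kx n N e L U σ q) :
    Rep W J (sbs V W J c Kx n N e L U T) fun j => C (2 * σ) * (F j).comp q := fun hk => by
  have k1 := ((bnd_iff _ _).1 hk).1
  simp only [bnd_iff, Nat.ble_eq, Nat.mul_eq] at k1
  obtain ⟨v, h1, h2, h3⟩ := h k1.1
  obtain ⟨u, u1, u2⟩ := hU
  have hD : ∀ k, Vec W J (2 * T.K) (Nat.rec (motive := fun _ => ℕ) (Nat.add (T.f 0)
      (Nat.mul T.K (ones W J))) (fun _ _ => Nat.mul 2 (T.f k)) k)
      fun j => (if k = 0 then 1 else 2) * v k j := fun k => by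
    cases k with
    | zero =>
      rw [two_mul]
      exact ((h1 0).more hW T.K).congr fun _ _ => (one_mul _).symm
    | succ k => exact (h1 _).smul 2
  refine ⟨_, mix_vec hk hW u1 (mat_rgen fun k _ => hD k), fun a ha j _ => if_neg (not_lt.2 ha),
    fun j hj => ?_⟩
  change Sm N (16 * c * (2 * T.K * e) + 2 * T.e * L : ℕ) (_ - pol n _)
  rw [pol_congr (d := fun a => ∑ i ∈ range (16 * c), (u a i : ℝ) *
    ((if i = 0 then 1 else 2) * v i j : ℤ)) fun a ha => by simp [ha], pol_sum]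
  have t1 := Sm.sum (range (16 * c)) fun i hi => ((u2 i (mem_range.1 hi)).1.cmul
    ((if i = 0 then 1 else 2) * v i j : ℤ)).mono (mul_le_mul_of_nonneg_right
      (show _ ≤ ((2 * T.K : ℕ) : ℝ) by exact_mod_cast (hD i).2 j hj) (Nat.cast_nonneg e))
  have t2 := (((h3 j hj).deg k1.2.2).map (fun F => C σ * F.comp q)
    (fun _ _ => by rw [add_comp, mul_add]) (fun _ _ => by rw [mul_comp, C_comp, mul_left_comm])
    (Nat.cast_nonneg L) fun a ha => (u2 a ha).2).cmul 2
  refine (t1.add t2).congr ?_ ?_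
  · rw [← pol_ext (fun a ha => by rw [h2 a ha j hj, Int.cast_zero]) k1.2.1]
    have : ∑ i ∈ range (16 * c), C (((if i = 0 then 1 else 2) * v i j : ℤ) : ℝ) *
        (C σ * (TS i).comp q) = C 2 * (C σ * (pol (16 * c) fun a => v a j).comp q) := by
      simp only [pol, Polynomial.sum_comp, mul_comp, C_comp, mul_sum]
      refine sum_congr rfl fun i _ => ?_
      have : (((if i = 0 then 1 else 2) * v i j : ℤ) : ℝ) = 2 * (wt i * v i j) := by
        unfold wt
        split_ifs <;> push_cast <;> ring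
      rw [this, C_mul]
      ring
    simp only [mul_sub, sum_sub_distrib, sub_comp, this, C_mul]
    ring
  · rw [sum_const, card_range, nsmul_eq_mul, abs_two]
    push_cast
    exact le_of_eq (by ring)

/-- The plain Chebyshev sum. -/
def tsP (n : ℕ) (c : ℕ → ℝ) : ℝ[X] := ∑ a ∈ range n, C (c a) * TS a

theorem tsP_eval (n : ℕ) (c : ℕ → ℝ) (x : ℝ) :
    (tsP n c).eval ((1 + Real.cos x) / 2) = ts false n c x := by
  simp [tsP, ts, cs, eval_finsetSum, TS_eval]

theorem rep_lit {K n : ℕ} {g : ℕ → ℕ} {c : ℕ → ℕ → ℤ} (hW : 0 < W)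
    (h : ∀ a < n, Vec W J K (g a) (c a)) :
    Rep W J (lit W J K n g) fun j => tsP n fun a => c a j := fun _ => by
  refine ⟨fun a j => if a < n then (if a = 0 then 2 else 1) * c a j else 0, fun a => ?_,
    fun a ha j _ => if_neg (not_lt.2 ha), fun j _ => ?_⟩
  · simp only [lit, cnd_eq, Nat.ble_eq]
    by_cases ha : a < n
    · simp only [ha, if_true, if_neg ha.not_ge]
      cases a with
      | zero => exact (h 0 ha).smul 2
      | succ a => simpa only [Nat.mul_eq, two_mul, Nat.succ_ne_zero, if_false, one_mul] using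
          (h _ ha).more hW K
    · simp only [ha, if_false, if_pos (not_lt.1 ha)]
      refine ⟨?_, fun _ _ => by simp⟩
      simp only [zero_add, pk_const hW, Nat.cast_mul, Nat.mul_eq, mul_assoc]
  · refine Sm.zero.congr (sub_eq_zero.2 (sum_congr rfl fun a ha => ?_)) (by simp [lit])
    have ha : a < n := mem_range.1 ha
    simp only [ha, if_true, wt]
    split_ifs <;> simp

theorem rep_one : Rep W 1 one fun _ => 1 := fun _ => by
  refine ⟨fun a _ => if a = 0 then 2 else 0, fun a => ?_, fun a ha j _ =>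
    if_neg (by have : 1 ≤ a := ha; omega), fun j _ => Sm.zero.congr ?_ (by simp [one])⟩
  · cases a <;> simp [Vec, one, pk]
  · simp [one, pol, wt, TS_zero]

theorem rep_zer (K : ℕ) : Rep W 1 (zer K) fun _ => 0 := fun _ =>
  ⟨fun _ _ => 0, fun a => by simp [Vec, zer, pk], fun _ _ _ _ => rfl, fun j _ =>
    Sm.zero.congr (by simp [zer, pol]) (by simp [zer])⟩

theorem Rep.itr {g : RT → RT} {p : ℝ[X]}
    (hg : ∀ {T F}, Rep W J T F → Rep W J (g T) fun j => p * F j) (h : Rep W J T F) :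
    ∀ i, Rep W J (itr g T i) fun j => p ^ i * F j
  | 0 => h.congr fun _ _ => by simp
  | i + 1 => (hg (h.itr hg i)).congr fun _ _ => by ring

theorem Rep.stm (h : Rep W J T F) (hW : 0 < W) : Rep W J (stm W J T) fun j => 4 * (1 - X) * F j :=
  ((h.sml 2).add (h.st0.neg hW)).congr fun _ _ => by
    simp only [Nat.cast_ofNat, map_ofNat]
    ring

theorem Rep.pw (h : Rep W J T F) (i : ℕ) :
    Rep W J (KRad.itr KRad.st2 T i) fun j => (4 * X) ^ i * F j := Rep.itr Rep.st2 h i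

theorem Rep.mq (h : Rep W J T F) (hW : 0 < W) :
    Rep W J (mq W J T) fun j => 256 * (1 - X ^ 4) * F j :=
  ((h.sml 256).add ((h.pw 4).neg hW)).congr fun _ _ => by
    simp only [Nat.cast_ofNat, map_ofNat]
    ring

theorem Rep.lop (h : Rep W J T F) (hW : 0 < W) (a b : ℕ) : Rep W J (lop W J a b T) fun j =>
    1024 * ((C (-a : ℝ) + C (b : ℝ) * X ^ 4) * F j
      - (1 + X + X ^ 2 + X ^ 3) * (X * (1 - X) * derivative (F j))) :=
  have E := (h.eul hW).neg hW
  (((((((((h.sml _).st2.add (E.sml 4)).st2.add (E.sml 16)).st2.add (E.sml 64)).st2.add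
    (E.sml 256)).add ((h.neg hW).sml _))))).congr fun _ _ => by
    simp only [Nat.mul_eq, Nat.cast_mul, Nat.cast_ofNat, map_ofNat, C_mul, C_neg]
    ring

theorem rep_rec3 {α β : ℕ → ℕ} {T0 T1 : RT} {g : ℕ → ℝ[X]} (hW : 0 < W)
    (h0 : Rep W 1 T0 fun _ => g 0) (h1 : Rep W 1 T1 fun _ => g 1)
    (hg : ∀ m, g (m + 2) = C (α m : ℝ) * ((4 * X - 2) * g (m + 1)) - C (β m : ℝ) * g m) :
    ∀ m, Rep W 1 (rec3 W α β T0 T1 m).1 (fun _ => g m) ∧
      Rep W 1 (rec3 W α β T0 T1 m).2 fun _ => g (m + 1)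
  | 0 => ⟨h0, h1⟩
  | m + 1 =>
    have ih := rep_rec3 hW h0 h1 hg m
    ⟨ih.2, ((ih.2.st0.sml _).add ((ih.1.neg hW).sml _)).congr fun _ _ => by rw [hg]; ring⟩

theorem rep_zr : Rep W J zr fun _ => 0 := fun _ =>
  ⟨fun _ _ => 0, fun a => by simp [Vec, zr, pk], fun _ _ _ _ => rfl, fun j _ =>
    Sm.zero.congr (by simp [zr, pol]) (by simp [zr])⟩

theorem sel_eq {V b : ℕ} (hV : 0 < V) (hb : b ≤ V) (W J s x : ℕ) :
    (sel V b W J s x : ℤ) = pk W J fun j => bits x (s + V * j) b := by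
  have h1 := land_shr_msk hV hb J x s
  obtain ⟨q, hq⟩ := Nat.exists_eq_add_of_le (show J ≤ 16 * (J / 16 + 1) by omega)
  refine (rslA_eq V W (J / 16 + 1) (Nat.land (Nat.shiftRight x s) (msk V b J))).trans ?_
  rw [pk_ext V J q] at h1
  rw [pk_ext W J q, hq]
  refine pk_congr fun j hj => bits_pk le_rfl h1 (fun j _ => ?_) j hj
  split_ifs
  · exact ⟨by positivity, by
      exact_mod_cast (bits_lt _ _ _).trans_le (Nat.pow_le_pow_right two_pos hb)⟩
  · exact ⟨le_rfl, by positivity⟩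

/-- Every `g`-th entry of a vector, from entry `d` on. -/
theorem vec_sel {V p K x g d : ℕ} {v : ℕ → ℤ} (h : Vec V p K x v) (hV : 0 < V) (hg : 0 < g)
    (hK : 2 * K < 2 ^ V) (hp : ∀ j < J, d + g * j < p) :
    Vec W J K (sel (g * V) V W J (V * d) x) fun j => v (d + g * j) :=
  ⟨(sel_eq (by positivity) (Nat.le_mul_of_pos_left _ hg) _ _ _ _).trans (pk_congr fun j hj => by
    rw [← h.ent hK (hp j hj), show V * d + g * V * j = V * (d + g * j) by ring]),
    fun j hj => h.2 _ (hp j hj)⟩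

end

end Pool.Agent.Lib.KRad
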