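import Pool.Agent.Lib.KRad.Sup
import Pool.Agent.Lib.KRad.Sound
import Pool.Agent.Lib.KBlk.LayS

/-!
Meaning of the checks of `Sup`.
-/

namespace Pool.Agent.Lib.KRad

open Polynomial Finset Pool.Agent.Lib.KLA Pool.Agent.Lib.KBlk

variable {W J b q r K x : ℕ} {T : RT} {F : ℕ → ℝ[X]} {s : ℕ → ℤ}

theorem l1v_sound (h : l1v W J b q r K x T = true) (hx : Vec W J K x s) : T.ok = true ∧
    ∀ v : ℕ → ℕ → ℤ, (∀ a < T.n, Vec W J T.K (T.f a) (v a)) → ∀ j < J,
      r * (∑ a ∈ range T.n, |v a j| + T.e) ≤ 2 ^ q * (s j + K) := by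
  simp only [l1v, bnd_iff, Nat.ble_eq, Nat.add_eq, Nat.mul_eq, Nat.sub_eq, shl_eq, one_mul,
    sumF_eq] at h
  obtain ⟨⟨k1, k2⟩, k4⟩ := h
  refine ⟨((bnd_iff _ _).1 k1).1, fun v hv j hj => ?_⟩
  have hb : b + 1 ≤ W := by
    simp only [tgt, bnd_iff, Nat.ble_eq, Nat.add_eq] at k1
    exact k1.2.1.1
  have hW : 0 < W := by omega
  have t := fun a (ha : a ∈ range T.n) =>
    have t := tgt_vec k1 (hv a (mem_range.1 ha)) fun h => absurd (mem_range.1 ha) (by omega)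
    vabs_sound t.1 t.2 hb
  choose! u hu hu' using t
  change 2 * K * 2 ^ q + r * (T.n * 2 ^ b + (T.n + T.e)) ≤ _ at k2
  change small (x * 2 ^ q) (r * (∑ a ∈ range T.n, vabs W b J ((tgt W J b T).f a)
    + (T.n + T.e) * ones W J)) _ = true at k4
  have t2 := small_sound (v := fun j => 2 ^ q * (s j + K)
      - r * (∑ a ∈ range T.n, u a j + (T.n + T.e))) hW (Nat.sub_le W 1) k4 (by
    push_cast
    rw [sum_congr rfl hu, pk_sum, ← pk_const hW, pk_add, pk_mul, hx.1, mul_comm, pk_mul, pk_sub])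
    (fun j hj => by
      have t3 : 2 * (K : ℤ) * 2 ^ q + r * (T.n * 2 ^ b + (T.n + T.e)) ≤ 2 ^ (W - 1) := by
        exact_mod_cast k2
      have t4 := sum_le_card_nsmul (range T.n) (fun a => u a j) (2 ^ b) fun a ha =>
        (hu' a ha j hj).2.1.le
      rw [card_range, nsmul_eq_mul] at t4
      have t5 : 0 ≤ ∑ a ∈ range T.n, u a j := sum_nonneg fun a ha => (hu' a ha j hj).1
      have t6 := abs_le.1 (hx.2 j hj)
      have t7 : (2 : ℤ) ^ W = 2 ^ (W - 1) + 2 ^ (W - 1) := by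
        rw [← two_mul, ← pow_succ', Nat.sub_add_cancel hW]
      have p1 : (0 : ℤ) < 2 ^ q := by positivity
      have p2 : (0 : ℤ) ≤ r := r.cast_nonneg
      have p3 : (0 : ℤ) ≤ T.n + T.e := by positivity
      have t8 := mul_le_mul_of_nonneg_left t4 p2
      have t9 := mul_nonneg p2 (add_nonneg t5 p3)
      have u1 : 0 ≤ 2 ^ q * (s j + K) := mul_nonneg p1.le (by linarith)
      have u2 : 2 ^ q * (s j + K) ≤ 2 ^ q * (K + K) :=
        mul_le_mul_of_nonneg_left (by linarith) p1.le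
      rw [t7, add_le_add_iff_right, abs_le]
      constructor <;> linarith) j hj
  have t3 := sum_le_sum fun a (ha : a ∈ range T.n) => (hu' a ha j hj).2.2.2
  rw [sum_add_distrib, sum_const, card_range, nsmul_eq_mul, mul_one] at t3
  have := mul_le_mul_of_nonneg_left t3 (r.cast_nonneg : (0 : ℤ) ≤ r)
  linarith [t2.1]

theorem sup_cos {z : ℝ} (h : z ∈ Set.Icc (0 : ℝ) 1) : ∃ x, z = (1 + Real.cos x) / 2 :=
  ⟨Real.arccos (2 * z - 1), by
    rw [Real.cos_arccos (by linarith [h.1]) (by linarith [h.2])]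
    ring⟩

theorem Rep.sup_l1 (h : Rep W J T F) (hl : l1v W J b q r K x T = true) (hx : Vec W J K x s) {j : ℕ}
    (hj : j < J) {z : ℝ} (hz : z ∈ Set.Icc (0 : ℝ) 1) :
    r * |(F j).eval z| ≤ 2 ^ q * (s j + K) := by
  obtain ⟨k1, k2⟩ := l1v_sound hl hx
  obtain ⟨v, h1, -, h3⟩ := h k1
  obtain ⟨y, rfl⟩ := sup_cos hz
  have t := (((sm_pol (n := T.n) (c := fun a => v a j)).deg (le_max_right T.N _)).add
    ((h3 j hj).deg (le_max_left _ T.n))).abs_eval y
  rw [add_sub_cancel] at t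
  refine (mul_le_mul_of_nonneg_left t r.cast_nonneg).trans ?_
  exact_mod_cast k2 v (fun a _ => h1 a) j hj

theorem pol_sin (c : ℕ → ℝ) (x : ℝ) : ∀ n, 2 * Real.sin x * (pol (n + 1) c).eval
    ((1 + Real.cos x) / 2) = ∑ a ∈ range (n + 1), (c (pr a) - c (a + 1)) * Real.sin (a * x)
      + c n * Real.sin ((n + 1) * x) + c (n + 1) * Real.sin (n * x)
  | 0 => by
    simp [pol_one, pr]
    ring
  | n + 1 => by
    have e1 := Real.sin_add ((n + 1) * x) x
    have e2 := Real.sin_sub ((n + 1) * x) x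
    rw [pol_succ, eval_add, mul_add, pol_sin c x n, sum_range_succ _ (n + 1), eval_mul, eval_C,
      TS_eval]
    simp only [pr, Nat.succ_ne_zero, if_false, Nat.add_sub_cancel]
    push_cast
    rw [show ((n : ℝ) + 1 + 1) * x = (n + 1) * x + x by ring, e1,
      show (n : ℝ) * x = (n + 1) * x - x by ring, e2]
    ring

theorem Rep.sup_sn (h : Rep W J T F) (hW : 0 < W) (hl : l1v W J b q r K x (sn W J T) = true)
    (hx : Vec W J K x s) {j : ℕ} (hj : j < J) {z : ℝ} (hz : z ∈ Set.Icc (0 : ℝ) 1) :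
    z * (1 - z) * (4 * r * (F j).eval z) ^ 2 ≤ (2 ^ q * (s j + K)) ^ 2 := by
  obtain ⟨k1, k2⟩ := l1v_sound hl hx
  obtain ⟨v, h1, h2, h3⟩ := h k1
  obtain ⟨y, rfl⟩ := sup_cos hz
  have k3 := k2 (fun a j => v (pr a) j - v (a + 1) j) (fun a _ => by
    have := (h1 (pr a)).add ((h1 (a + 1)).neg hW)
    refine ⟨?_, fun j hj => ?_⟩
    · have e1 := (h1 (pr a)).1
      have e2 := (h1 (a + 1)).1
      have e3 : ((T.f (pr a) : ℤ) + (2 * T.K * ones W J : ℕ)) - T.f (a + 1) =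
          pk W J fun j => v (pr a) j - v (a + 1) j + (2 * T.K : ℕ) := by
        push_cast
        rw [e1, e2, ← pk_const hW, pk_add, pk_sub]
        exact pk_congr fun j _ => by ring
      have e4 : 0 ≤ pk W J fun j => v (pr a) j - v (a + 1) j + (2 * T.K : ℕ) :=
        pk_nonneg fun j hj => by
          have := abs_le.1 ((h1 (pr a)).2 j hj)
          have := abs_le.1 ((h1 (a + 1)).2 j hj)
          push_cast
          linarith
      simp only [sn, rec_pr, strict_eq, Nat.add_eq, Nat.mul_eq, Nat.sub_eq]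
      rw [Nat.cast_sub (by omega), Nat.cast_add, e3]
    · have := this.2 j hj
      simpa only [sn, Nat.mul_eq, two_mul, sub_eq_add_neg] using this) j hj
  change (r : ℤ) * (∑ a ∈ range (T.n + 1), |v (pr a) j - v (a + 1) j| + (2 * T.e : ℕ)) ≤ _ at k3
  have k4 : (r : ℝ) * (∑ a ∈ range (T.n + 1), |(v (pr a) j : ℝ) - v (a + 1) j| + 2 * T.e)
      ≤ 2 ^ q * (s j + K) := by exact_mod_cast k3
  have z0 : ∀ a, T.n ≤ a → (v a j : ℝ) = 0 := fun a ha => by exact_mod_cast h2 a ha j hj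
  have e := pol_sin (fun a => v a j) y T.n
  rw [pol_ext z0 T.n.le_succ, z0 _ le_rfl, z0 _ T.n.le_succ, zero_mul, zero_mul, add_zero,
    add_zero] at e
  have t1 := (h3 j hj).abs_eval y
  rw [eval_sub] at t1
  have t2 : |∑ a ∈ range (T.n + 1), ((v (pr a) j : ℝ) - v (a + 1) j) * Real.sin (a * y)|
      ≤ ∑ a ∈ range (T.n + 1), |(v (pr a) j : ℝ) - v (a + 1) j| :=
    (abs_sum_le_sum_abs _ _).trans (sum_le_sum fun a _ => by
      rw [abs_mul]
      exact mul_le_of_le_one_right (abs_nonneg _) (Real.abs_sin_le_one _))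
  rw [← e] at t2
  generalize (pol T.n fun a => (v a j : ℝ)).eval _ = P at t1 t2
  generalize (F j).eval _ = f at t1 ⊢
  have t3 : |2 * Real.sin y * f| ≤ |2 * Real.sin y * P| + 2 * T.e := by
    rw [show 2 * Real.sin y * f = 2 * Real.sin y * P + 2 * (Real.sin y * (f - P)) by ring]
    refine (abs_add_le _ _).trans (add_le_add le_rfl ?_)
    rw [abs_mul, abs_mul, abs_two]
    have := mul_le_mul (Real.abs_sin_le_one y) t1 (abs_nonneg _) zero_le_one
    linarith
  have t4 : |r * (2 * Real.sin y * f)| ≤ 2 ^ q * (s j + K) := by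
    rw [abs_mul, Nat.abs_cast]
    exact (mul_le_mul_of_nonneg_left (by linarith) r.cast_nonneg).trans k4
  refine le_of_eq_of_le ?_ (sq_le_sq' (abs_le.1 t4).1 (abs_le.1 t4).2)
  linear_combination (-4 * (r * f) ^ 2) * Real.sin_sq_add_cos_sq y

theorem Rep.ls (h : Rep W J T F) (hW : 0 < W) (a b : ℕ) : Rep W J (ls W J a b T) fun j =>
    4 * ((C (-a : ℝ) + C (b : ℝ) * (1 - X)) * F j + 4 * (X * (1 - X) * derivative (F j))) :=
  ((((h.stm hW).sml b).add ((h.eul hW).sml 4)).add ((h.neg hW).sml _)).congr fun j _ => by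
    simp only [Nat.mul_eq, Nat.cast_mul, Nat.cast_ofNat, map_mul, map_neg, map_ofNat]
    ring

theorem lk_eq (k : ℕ) : (lk k : ℝ) = (2 * k + 2) * (2 * k + 3) := by
  simp [lk]

variable {p m n e d t : ℕ}

theorem dig_msk (hW : 0 < W) (hd : d ≤ W) (p s : ℕ) {j : ℕ} (hj : j < p) :
    bits (Nat.land s (msk W d p)) (W * j) W = bits s (W * j) d := by
  have := bits_pk le_rfl (land_msk hW hd p s) (fun j _ => ⟨Nat.cast_nonneg _, by
    exact_mod_cast (bits_lt _ _ _).trans_le (Nat.pow_le_pow_right two_pos hd)⟩) j hj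
  exact_mod_cast this

theorem dsum_had {x y B : ℕ} {u v : ℕ → ℤ} (hx : (x : ℤ) = pk W p u) (hp : p ≤ 16 * m)
    (hu : ∀ j < p, 0 ≤ u j ∧ u j < 2 ^ W) (hy : ∀ j < p, (bits y (W * j) W : ℤ) = v j)
    (hB : ∀ j < p, u j * v j ≤ B) (h : p * B + 1 < 2 ^ W) :
    (dsum W (had W m x y) : ℤ) = ∑ j ∈ range p, u j * v j := by
  have e0 : (x : ℤ) = pk W (16 * m) fun j => if j < p then u j else 0 := by
    obtain ⟨c, hc⟩ := Nat.exists_eq_add_of_le hp
    rw [hc, pk_split, hx, pk_congr (v := fun j => if j < p then u j else 0) (w := u)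
      fun j hj => if_pos hj]
    simp [pk]
  have e1 := bits_pk le_rfl e0 fun j _ => by
    split_ifs with hj
    exacts [hu j hj, ⟨le_rfl, by positivity⟩]
  have e2 : (had W m x y : ℤ) = pk W (16 * m) fun j => if j < p then u j * v j else 0 := by
    simp only [had, strict_eq]
    refine (hadA_eq W m x y).trans (pk_congr fun j hj => ?_)
    rw [e1 j hj]
    split_ifs with hj
    exacts [by rw [hy j hj], zero_mul _]
  have e3 : ∑ j ∈ range (16 * m), (if j < p then u j * v j else 0) = ∑ j ∈ range p, u j * v j := by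
    rw [← sum_filter]
    congr 1
    ext j
    simp only [mem_filter, mem_range]
    omega
  have e4 := sum_le_card_nsmul (range p) (fun j => u j * v j) B fun j hj => hB j (mem_range.1 hj)
  rw [card_range, nsmul_eq_mul] at e4
  have e5 : (p : ℤ) * B + 1 < 2 ^ W := by exact_mod_cast h
  rw [dsum_eq e2 (fun j _ => ?_) (by linarith), e3]
  split_ifs with hj
  exacts [mul_nonneg (hu j hj).1 (hy j hj ▸ Nat.cast_nonneg _), le_rfl]

theorem vabs_one {v : ℕ → ℤ} (hx : Vec W p K x v) (hK : K < 2 ^ e) (he : e + 1 ≤ W) :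
    ∃ u : ℕ → ℤ, ((Nat.add (vabs W e p (Nat.add x (Nat.mul (Nat.sub (Nat.shiftLeft 1 e) K)
      (ones W p)))) (ones W p) : ℕ) : ℤ) = pk W p u ∧ ∀ j < p, |v j| ≤ u j ∧ u j ≤ 2 ^ e := by
  have h0 := hx.more (by omega) (Nat.sub (Nat.shiftLeft 1 e) K)
  rw [show K + Nat.sub (Nat.shiftLeft 1 e) K = 2 ^ e by
    rw [shl_eq, one_mul, Nat.sub_eq]
    omega] at h0
  obtain ⟨u, h1, h2⟩ := vabs_sound h0 (fun j hj => ((le_abs_self _).trans (hx.2 j hj)).trans_lt
    (by exact_mod_cast hK)) he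
  refine ⟨fun j => u j + 1, ?_, fun j hj => ⟨(h2 j hj).2.2.2, (h2 j hj).2.1⟩⟩
  refine (Nat.cast_add _ _).trans ?_
  rw [h1, ones_eq (by omega), pk_add]

theorem colq_sound {D : Rows} {c : ℕ → ℕ → ℤ} {V w : ℕ} (hD : Mat W p K n D c) (hK : K < 2 ^ e)
    (he : e + 1 ≤ W) (hV : 0 < V) (hd : d ≤ V) (hp : p ≤ 16 * m)
    (h1 : n * 2 ^ (d + e) ≤ 2 ^ (w + t)) (h2 : w + t < W) (h3 : p * (2 ^ w + 1) ^ 2 + 1 < 2 ^ W)
    (s : ℕ) : ∑ j ∈ range p, (∑ k ∈ range n, |c k j| * bits s (V * k) d) ^ 2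
      ≤ 4 ^ t * colq V W p m n K e d t D s := by
  have hW : 0 < W := by omega
  have t1 := fun k (hk : k ∈ range n) => vabs_one (hD.2 k (mem_range.1 hk)) hK he
  simp only [colq, strict_eq]
  generalize Nat.mul (Nat.sub (Nat.shiftLeft 1 e) K) (ones W p) = z at t1 ⊢
  choose! u hu hu' using t1
  set y : ℕ → ℤ := fun j => ∑ k ∈ range n, bits s (V * k) d * u k j with hy
  have e1 : (dot V (D.map fun r => Nat.add (vabs W e p (Nat.add r z)) (ones W p))
      (Nat.land s (msk V d n)) : ℤ) = pk W p y := by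
    rw [dot_eq, len_map, hD.1, Nat.cast_sum, hy, ← pk_sum]
    refine sum_congr rfl fun k hk => ?_
    rw [dig_msk hV hd n s (mem_range.1 hk), get_map _ _ (hD.1 ▸ mem_range.1 hk), Nat.cast_mul,
      hu k hk, pk_mul]
  have y0 : ∀ j < p, ∑ k ∈ range n, |c k j| * bits s (V * k) d ≤ y j := fun j hj =>
    sum_le_sum fun k hk => by
      rw [mul_comm]
      exact mul_le_mul_of_nonneg_left (hu' k hk j hj).1 (Nat.cast_nonneg _)
  have y1 : ∀ j, 0 ≤ ∑ k ∈ range n, |c k j| * bits s (V * k) d := fun j =>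
    sum_nonneg fun k _ => by positivity
  have y2 : ∀ j < p, y j ≤ 2 ^ (w + t) := fun j hj => by
    have := sum_le_card_nsmul (range n) (fun k => bits s (V * k) d * u k j) (2 ^ d * 2 ^ e)
      fun k hk => mul_le_mul (by exact_mod_cast (bits_lt _ _ _).le) (hu' k hk j hj).2
        ((abs_nonneg _).trans (hu' k hk j hj).1) (by positivity)
    rw [card_range, nsmul_eq_mul, ← pow_add] at this
    exact this.trans (by exact_mod_cast h1)
  have e2 := round_pk (s := t) (by omega) e1 (fun j hj => ⟨(y1 j).trans (y0 j hj),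
    (y2 j hj).trans_lt (pow_lt_pow_right₀ one_lt_two h2)⟩) 0 p (by omega)
  have e3 : ((Nat.add (rnd W t 0 p (dot V (D.map fun r => Nat.add (vabs W e p (Nat.add r z))
      (ones W p)) (Nat.land s (msk V d n)))) (ones W p) : ℕ) : ℤ)
      = pk W p fun j => y j / 2 ^ t + 1 := by
    rw [Nat.add_eq, Nat.cast_add, ones_eq hW, ← pk_add]
    simp only [zero_add] at e2
    exact congrArg (· + _) e2
  have p0 : (0 : ℤ) < 2 ^ t := by positivity
  have z0 : ∀ j < p, 0 ≤ y j / 2 ^ t := fun j hj => Int.ediv_nonneg ((y1 j).trans (y0 j hj)) p0.le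
  have z1 : ∀ j < p, y j / 2 ^ t ≤ 2 ^ w := fun j hj =>
    Int.ediv_le_of_le_mul p0 (by rw [← pow_add]; exact y2 j hj)
  have z2 : ∀ j < p, 0 ≤ y j / 2 ^ t + 1 ∧ y j / 2 ^ t + 1 < 2 ^ W := fun j hj => by
    have a1 : (p : ℤ) * (2 ^ w + 1) ^ 2 + 1 < 2 ^ W := by exact_mod_cast h3
    have a2 : (1 : ℤ) ≤ p := by exact_mod_cast (by omega : 1 ≤ p)
    have a3 : (0 : ℤ) < 2 ^ w := by positivity
    have := z0 j hj
    have := z1 j hj
    constructor <;> nlinarith
  rw [dsum_had (B := (2 ^ w + 1) ^ 2) e3 hp z2 (bits_pk le_rfl e3 z2) (fun j hj => ?_) h3, mul_sum]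
  · refine sum_le_sum fun j hj => ?_
    have hj := mem_range.1 hj
    have a1 := (Int.lt_ediv_add_one_mul_self (y j) p0).le
    refine (pow_le_pow_left₀ (y1 j) ((y0 j hj).trans a1) 2).trans_eq ?_
    rw [show (4 : ℤ) = 2 * 2 by norm_num, mul_pow 2]
    ring
  · push_cast
    rw [pow_two]
    exact mul_self_le_mul_self (z2 j hj).1 (by linarith [z1 j hj])

theorem vec_dig {V : ℕ} (hd : 0 < d) (hV : d ≤ V) (W o J s : ℕ) : Vec W J (2 ^ (d - 1))
    (sel V d W J (V * o) s) fun j => (bits s (V * (o + j)) d : ℤ) - 2 ^ (d - 1) := by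
  refine ⟨(sel_eq (by omega) hV _ _ _ _).trans (pk_congr fun j _ => by simp [mul_add]),
    fun j _ => ?_⟩
  have h1 : (bits s (V * (o + j)) d : ℤ) < 2 ^ d := by exact_mod_cast bits_lt _ _ _
  have h2 : (2 : ℤ) ^ d = 2 * 2 ^ (d - 1) := by rw [← pow_succ', Nat.sub_add_cancel hd]
  have h3 : (0 : ℤ) ≤ bits s (V * (o + j)) d := Nat.cast_nonneg _
  push_cast
  rw [abs_le]
  constructor <;> linarith

/-- Sums over panels; panel `i` starts at `o i`. -/
theorem sum_panels {o c : ℕ → ℕ} {f : ℕ → ℤ} (h0 : o 0 = 0) : ∀ P, (∀ i < P, o i ≤ o (i + 1) ∧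
    ∑ j ∈ range (o (i + 1) - o i), f (o i + j) ≤ c i) →
      ∑ j ∈ range (o P), f j ≤ (∑ i ∈ range P, c i : ℕ)
  | 0, _ => by simp [h0]
  | P + 1, h => by
    have h1 := h P P.lt_succ_self
    rw [← Nat.add_sub_cancel' h1.1, sum_range_add, sum_range_succ, Nat.cast_add]
    exact add_le_add (sum_panels h0 P fun i hi => h i (by omega)) h1.2

theorem pwP_sound {U V w c s P : ℕ} {B : List ℕ} {A : Lay} {Z : ℕ → Chk}
    (h : All (pwP U V K e d t w c A Z s B) P) (hP : A.nq ≤ A.q * P) (hK : K < 2 ^ e)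
    (he : e + 1 ≤ V) (hU : 0 < U) (hd : d ≤ U) (h1 : 16 * c * 2 ^ (d + e) ≤ 2 ^ (w + t))
    (h2 : w + t < V) : ∑ j ∈ range A.N, (∑ k ∈ range (16 * c), |pent V A Z k j| * bits s (U * k) d) ^ 2
      ≤ (4 ^ t * sumF (lget B) P : ℕ) := by
  have e0 : ∀ i, pbI A i = A.b0 + min (A.q * i) A.nq := fun i => by
    simp only [pbI, Nat.add_eq, Nat.mul_eq, Nat.sub_eq]
    omega
  have e1 : A.N = A.st (pbI A P) := by
    rw [e0, min_eq_right hP, Lay.st, Nat.add_sub_cancel_left, Lay.N]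
  rw [e1, sumF_eq, mul_sum]
  refine sum_panels (o := fun i => A.st (pbI A i)) (by simp [e0, Lay.st, tot]) P fun i hi => ?_
  have k3 := h i hi
  simp only [pwP, strict_eq, bnd_iff, Nat.ble_eq, shl_eq, one_mul, Nat.pow_eq, Nat.add_eq,
    Nat.mul_eq, Nat.sub_eq] at k3
  have e2 : pbI A (i + 1) = pbI A i + (pbI A (i + 1) - pbI A i) := by
    rw [e0, e0, mul_add]
    omega
  have e3 := Lay.st_add (Lay.fit_iff.1 k3.1.1.1).1 (pbI A (i + 1) - pbI A i)
  rw [← e2] at e3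
  simp only [e3, Nat.add_sub_cancel_left]
  refine ⟨Nat.le_add_right _ _, ?_⟩
  have := colq_sound (m := Nat.div (tot A.J (pbI A (i + 1) - pbI A i) (pbI A i)) 16 + 1)
    (mat_ldT (c0 := 0) (c := c) k3.1.1.2 (by omega) k3.1.1.1) hK he hU hd (by
      change _ ≤ 16 * (_ / 16 + 1)
      omega) h1 h2 (by omega) s
  simp only [mul_zero, zero_add] at this
  exact this.trans (by exact_mod_cast Nat.mul_le_mul_left _ k3.2)

theorem pwZ_sound {U V w c s B : ℕ} {Z : Chk} (h : pwZ U V K e d t c Z s B = true) (hK : K < 2 ^ e)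
    (he : e + 1 ≤ V) (hU : 0 < U) (hd : d ≤ U) (h1 : 16 * c * 2 ^ (d + e) ≤ 2 ^ (w + t))
    (h2 : w + t < V) (h3 : 2 * (2 ^ w + 1) ^ 2 + 1 < 2 ^ V) : ∑ j ∈ range 2,
      (∑ k ∈ range (16 * c), |Z.ent V k j| * bits s (U * k) d) ^ 2 ≤ (4 ^ t * B : ℕ) := by
  simp only [pwZ, bnd_iff, Nat.ble_eq, Nat.mul_eq] at h
  have := colq_sound (m := 1) (mat_ld (c0 := 0) (c := c) h.1 0 2 (by omega)) hK he hU hd
    (by omega) h1 h2 h3 s
  simp only [mul_zero, zero_add] at this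
  exact this.trans (by exact_mod_cast Nat.mul_le_mul_left _ h.2)

end Pool.Agent.Lib.KRad
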