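import Pool.Agent.Lib.KRad.Fro
import Pool.Agent.Lib.KRad.SupS

/-!
Meaning of the checks of `Fro`.
-/

namespace Pool.Agent.Lib.KRad

open Finset Pool.Agent.Lib.KLA Pool.Agent.Lib.KBlk

variable {W V p J K s d x : ℕ} {T : Trm} {G : ℕ → ℕ → ℝ} {ε : ℝ}

theorem land_pk : ∀ {p x y : ℕ} {a b : ℕ → ℕ}, (x : ℤ) = pk W p (fun j => a j) →
    (y : ℤ) = pk W p (fun j => b j) → (∀ j < p, a j < 2 ^ W) → (∀ j < p, b j < 2 ^ W) →
    (Nat.land x y : ℤ) = pk W p fun j => (a j &&& b j : ℕ)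
  | 0, x, y, _, _, hx, hy, _, _ => by
    have hx' : x = 0 := Int.natCast_eq_zero.1 hx
    have hy' : y = 0 := Int.natCast_eq_zero.1 hy
    subst hx' hy'
    rfl
  | p + 1, x, y, a, b, hx, hy, ha, hb => by
    have key : ∀ {x : ℕ} {a : ℕ → ℕ}, (x : ℤ) = pk W (p + 1) (fun j => a j) → a 0 < 2 ^ W →
        x % 2 ^ W = a 0 ∧ ((x / 2 ^ W : ℕ) : ℤ) = pk W p fun j => a (j + 1) := fun {x a} h h0 => by
      rw [pk_succ] at h
      have h0' : (a 0 : ℤ) < 2 ^ W := by exact_mod_cast h0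
      constructor
      · have : ((x % 2 ^ W : ℕ) : ℤ) = a 0 := by
          push_cast
          rw [h, Int.add_mul_emod_self_left, Int.emod_eq_of_lt (Nat.cast_nonneg _) h0']
        exact_mod_cast this
      · push_cast
        rw [h, Int.add_mul_ediv_left _ _ (by positivity),
          Int.ediv_eq_zero_of_lt (Nat.cast_nonneg _) h0', zero_add]
    obtain ⟨x1, x2⟩ := key hx (ha 0 (by omega))
    obtain ⟨y1, y2⟩ := key hy (hb 0 (by omega))
    have h3 : Nat.land x y = (a 0 &&& b 0) + 2 ^ W * Nat.land (x / 2 ^ W) (y / 2 ^ W) := by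
      change x &&& y = _ + 2 ^ W * (x / 2 ^ W &&& y / 2 ^ W)
      rw [← x1, ← y1, ← Nat.and_mod_two_pow, ← Nat.and_div_two_pow, Nat.mod_add_div]
    rw [h3, pk_succ, Nat.cast_add, Nat.cast_mul, land_pk (a := fun j => a (j + 1))
      (b := fun j => b (j + 1)) x2 y2 (fun j hj => ha _ (by omega)) fun j hj => hb _ (by omega)]
    push_cast
    rfl

theorem vsq_eq {u : ℕ → ℤ} (hx : (x : ℤ) = pk W p u) (hu : ∀ j < p, 0 ≤ u j ∧ u j < 2 ^ d)
    (hd : d ≤ W) (hW : 0 < W) : ∀ n ≤ d, (vsq W p d x n : ℤ) = pk W p fun j => u j * (u j % 2 ^ n)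
  | 0, _ => by simp [vsq, pk]
  | n + 1, hn => by
    have e0 : ∀ j < p, (bits x (W * j) W : ℤ) = u j := bits_pk le_rfl hx fun j hj =>
      ⟨(hu j hj).1, (hu j hj).2.trans_le (pow_le_pow_right₀ one_le_two hd)⟩
    have l0 : ∀ j < p, bits x (W * j) W < 2 ^ d := fun j hj => by
      have := (hu j hj).2
      rw [← e0 j hj] at this
      exact_mod_cast this
    have e1 : ∀ j, bits x (n + W * j) 1 = bits x (W * j) W / 2 ^ n % 2 := fun j => by
      have := bits_mod (z := x / 2 ^ (W * j)) (t := W) (s := n) (b := 1) (by omega)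
      rw [bits_div, add_comm] at this
      rw [← this]
      simp [bits]
    have e2 : ((Nat.mul (low d) (Nat.land (Nat.shiftRight x n) (msk W 1 p)) : ℕ) : ℤ) =
        pk W p fun j => (low d * (bits x (W * j) W / 2 ^ n % 2) : ℕ) := by
      rw [Nat.mul_eq, Nat.cast_mul, land_shr_msk hW hW, pk_mul]
      exact pk_congr fun j _ => by rw [e1, Nat.cast_mul]
    have e3 := land_pk (a := fun j => bits x (W * j) W) (hx.trans (pk_congr fun j hj => (e0 j hj).symm))
      e2 (fun j _ => bits_lt _ _ _) fun j _ => by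
        have h1 : bits x (W * j) W / 2 ^ n % 2 ≤ 1 := by omega
        have h2 : 2 ^ d ≤ 2 ^ W := Nat.pow_le_pow_right two_pos hd
        have h3 : 0 < 2 ^ d := by positivity
        have := Nat.mul_le_mul_left (low d) h1
        rw [low_eq] at this ⊢
        omega
    change ((vsq W p d x n + Nat.shiftLeft _ n : ℕ) : ℤ) = _
    rw [shl_eq, Nat.cast_add, Nat.cast_mul, vsq_eq hx hu hd hW n (by omega), e3, mul_comm, pk_mul,
      pk_add]
    refine pk_congr fun j hj => ?_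
    rw [← e0 j hj]
    have h1 := l0 j hj
    generalize bits x (W * j) W = a at h1
    have h2 : a &&& low d * (a / 2 ^ n % 2) = a * (a / 2 ^ n % 2) := by
      rcases Nat.mod_two_eq_zero_or_one (a / 2 ^ n) with h | h <;> rw [h]
      · simp
      · rw [mul_one, mul_one, low_eq, Nat.and_two_pow_sub_one_eq_mod, Nat.mod_eq_of_lt h1]
    have h3 : ((a % 2 ^ (n + 1) : ℕ) : ℤ) = (a % 2 ^ n + 2 ^ n * (a / 2 ^ n % 2) : ℕ) := by
      rw [Nat.mod_pow_succ]
    rw [h2]
    push_cast at h3 ⊢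
    rw [h3]
    ring

theorem froA_sound (h : TOk W p J T K G ε) (hε : ε ≤ 2 ^ s) (hd : 0 < d) (he : s + d + 1 ≤ W)
    (hK : K + 2 ^ (s + d + 2) ≤ 2 ^ W) (h1 : p * 2 ^ (2 * d + 2) + 1 < 2 ^ W) {a B : ℕ} :
    ∀ q acc, a + q ≤ J → froA W p K s d T a B q acc = true →
      4 ^ s * (acc : ℝ) + ∑ j ∈ range q, ∑ m ∈ range p, G (a + j) m ^ 2 ≤ 4 ^ s * B
  | 0, acc, _, hf => by
    have : (acc : ℝ) ≤ B := by exact_mod_cast Nat.le_of_ble_eq_true hf
    simpa using this
  | q + 1, acc, hq, hf => by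
    have hW : 0 < W := by omega
    obtain ⟨y, y1, v, v1, v2⟩ := h (a + q) (by omega) 0 _ 0 _ 0 (apx_zero W p) hf
    rw [zero_add] at v1
    obtain ⟨z, z1, z2, z3⟩ := tight_sound y1 v1 he hK
    simp only [strict_eq, slt] at z1
    have t := froA_sound h hε hd he hK h1 q _ (by omega) z1
    obtain ⟨u, u1, u2⟩ := vabs_sound z2 z3 he
    have p0 : (0 : ℤ) < 2 ^ s := by positivity
    have e2 := round_pk (s := s) (by omega) u1 (fun j hj => ⟨(u2 j hj).1,
      (u2 j hj).2.1.trans (pow_lt_pow_right₀ one_lt_two he)⟩) 0 p (by omega)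
    have e3 : ((Nat.add (rnd W s 0 p (vabs W (Nat.add s d) p z)) (Nat.mul 2 (ones W p)) : ℕ) : ℤ)
        = pk W p fun j => u j / 2 ^ s + 2 := by
      rw [Nat.add_eq, Nat.cast_add, Nat.mul_eq, Nat.cast_mul, ← pk_const hW, ← pk_add]
      simp only [zero_add] at e2
      exact congrArg (· + _) e2
    have b1 : ∀ j < p, 0 ≤ u j / 2 ^ s + 2 ∧ u j / 2 ^ s + 2 < 2 ^ (d + 1) := fun j hj => by
      have a1 := Int.ediv_nonneg (u2 j hj).1 p0.le
      have a2 : u j / 2 ^ s < 2 ^ d :=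
        Int.ediv_lt_of_lt_mul p0 (by rw [← pow_add, add_comm]; exact (u2 j hj).2.1)
      have a3 : (2 : ℤ) ^ 1 ≤ 2 ^ d := pow_le_pow_right₀ one_le_two hd
      rw [pow_succ]
      constructor <;> linarith
    have e4 := (vsq_eq e3 b1 (by omega) hW (d + 1) le_rfl).trans (pk_congr
      (w := fun j => (u j / 2 ^ s + 2) ^ 2) fun j hj => by
        rw [Int.emod_eq_of_lt (b1 j hj).1 (b1 j hj).2, pow_two])
    have e5 := dsum_eq e4 (fun j _ => sq_nonneg _) (by
      have a1 := sum_le_card_nsmul (range p) (fun j => (u j / 2 ^ s + 2) ^ 2) ((2 ^ (d + 1)) ^ 2)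
        fun j hj => pow_le_pow_left₀ (b1 j (mem_range.1 hj)).1 (b1 j (mem_range.1 hj)).2.le 2
      have a2 : (p : ℤ) * 2 ^ (2 * d + 2) + 1 < 2 ^ W := by exact_mod_cast h1
      rw [card_range, nsmul_eq_mul, ← pow_mul, show (d + 1) * 2 = 2 * d + 2 by ring] at a1
      linarith)
    have t3 : ∑ m ∈ range p, G (a + q) m ^ 2
        ≤ 4 ^ s * ∑ m ∈ range p, ((u m / 2 ^ s + 2 : ℤ) : ℝ) ^ 2 := by
      rw [mul_sum]
      refine sum_le_sum fun m hm => ?_
      have hm := mem_range.1 hm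
      have a1 : (|v m| : ℤ) ≤ (u m / 2 ^ s + 1) * 2 ^ s :=
        (u2 m hm).2.2.2.trans (Int.lt_ediv_add_one_mul_self _ p0)
      have a2 : |(v m : ℝ)| ≤ (((u m / 2 ^ s : ℤ) : ℝ) + 1) * 2 ^ s := by exact_mod_cast a1
      have a3 := v2 m hm
      simp only [zero_add] at a3
      have a4 : |G (a + q) m| ≤ 2 ^ s * ((u m / 2 ^ s + 2 : ℤ) : ℝ) := by
        have := abs_sub_abs_le_abs_sub (G (a + q) m) (v m)
        rw [abs_sub_comm] at this
        rw [Int.cast_add, Int.cast_ofNat]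
        linarith
      rw [show (4 : ℝ) = 2 ^ 2 by norm_num, ← pow_mul, mul_comm 2, pow_mul, ← mul_pow]
      exact sq_le_sq' (abs_le.1 a4).1 (abs_le.1 a4).2
    have e6 : (dsum W (vsq W p (Nat.add d 1) (Nat.add (rnd W s 0 p (vabs W (Nat.add s d) p z))
        (Nat.mul 2 (ones W p))) (Nat.add d 1)) : ℝ)
        = ∑ m ∈ range p, ((u m / 2 ^ s + 2 : ℤ) : ℝ) ^ 2 := by exact_mod_cast e5
    rw [show ∀ a b : ℕ, ((Nat.add a b : ℕ) : ℝ) = a + b from Nat.cast_add, e6] at t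
    rw [sum_range_succ]
    linarith

theorem sum_grp (f : ℕ → ℝ) (R n : ℕ) : ∀ g, ∑ k ∈ range (min n (R * g)), f k =
    ∑ i ∈ range g, ∑ k ∈ range (n - R * i - (n - R * i - R)), f (R * i + k)
  | 0 => by simp
  | g + 1 => by
    rw [sum_range_succ, ← sum_grp f R n g]
    rcases le_total n (R * g) with h | h
    · rw [min_eq_left h, min_eq_left (h.trans (Nat.mul_le_mul_left _ g.le_succ)),
        Nat.sub_eq_zero_of_le h]
      simp
    · rw [min_eq_right h, ← sum_range_add]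
      congr 2
      rw [mul_add_one]
      omega

theorem froP_sound {A : Lay} {T : ℕ → ℕ → ℕ → ℕ → Trm} {n : ℕ → ℕ} {B : List ℕ} {P R g : ℕ}
    (h : All (froP V K s d R g A T n B) (g * P)) (hP : A.nq ≤ A.q * P) (hg : 0 < g)
    (hT : ∀ b q a r, A.fit b q = true → a + r ≤ n (A.pb b) → TOk V (tot A.J q b) r (T b q a r) K
      (fun k m => G (a + k) (A.st b + m)) ε)
    (hε : ε ≤ 2 ^ s) (hd : 0 < d) (he : s + d + 1 ≤ V) (hK : K + 2 ^ (s + d + 2) ≤ 2 ^ V) :
    ∑ j ∈ range A.N, ∑ k ∈ range (n (A.pan j)), G k j ^ 2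
      ≤ 4 ^ s * (sumF (lget B) (g * P) : ℕ) := by
  have e0 : ∀ i, pbI A i = A.b0 + min (A.q * i) A.nq := fun i => by
    simp only [pbI, Nat.add_eq, Nat.mul_eq, Nat.sub_eq]
    omega
  have e1 : A.N = A.st (pbI A P) := by
    rw [e0, min_eq_right hP, Lay.st, Nat.add_sub_cancel_left, Lay.N]
  rw [e1, sumF_eq, Nat.cast_sum, mul_sum]
  clear e1 hP
  induction P with
  | zero => simp [e0, Lay.st, tot]
  | succ i ih =>
    have k3 := fun l (hl : l < g) => h (g * i + l) (by rw [mul_add_one]; omega)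
    have d1 : ∀ l < g, Nat.div (g * i + l) g = i ∧ Nat.mod (g * i + l) g = l := fun l hl =>
      (Nat.div_mod_unique hg).2 ⟨add_comm _ _, hl⟩
    have e2 : pbI A (i + 1) = pbI A i + (pbI A (i + 1) - pbI A i) := by
      rw [e0, e0, mul_add]
      omega
    generalize hq : pbI A (i + 1) - pbI A i = q at e2
    have k4 : ∀ l < g, (A.fit (pbI A i) q = true ∧ n (A.pb (pbI A i)) ≤ R * g) ∧
        ∑ k ∈ range (n (A.pb (pbI A i)) - R * l - (n (A.pb (pbI A i)) - R * l - R)),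
          ∑ m ∈ range (tot A.J q (pbI A i)), G (R * l + k) (A.st (pbI A i) + m) ^ 2
          ≤ 4 ^ s * (lget B (g * i + l) : ℕ) := fun l hl => by
      have k := k3 l hl
      simp only [froP, strict_eq, bnd_iff, Nat.ble_eq, shl_eq, one_mul, Nat.add_eq, Nat.mul_eq,
        Nat.sub_eq, (d1 l hl).1, (d1 l hl).2, hq] at k
      refine ⟨k.1.1, ?_⟩
      rcases le_total (n (A.pb (pbI A i))) (R * l) with c | c
      · rw [Nat.sub_eq_zero_of_le c, Nat.zero_sub, sum_range_zero]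
        positivity
      · simpa using froA_sound (hT _ _ _ _ k.1.1.1 (by omega)) hε hd he hK (by omega) _ _
          (zero_add _).le k.2
    obtain ⟨f1, f2⟩ := (k4 0 hg).1
    have hf := Lay.fit_iff.1 f1
    rw [e2, Lay.st_add hf.1, sum_range_add, mul_add_one, sum_range_add]
    refine add_le_add (ih fun j hj => h j (by rw [mul_add_one]; omega))
      (le_of_eq_of_le ?_ (sum_le_sum fun l hl => (k4 l (mem_range.1 hl)).2))
    rw [← sum_grp (fun k => ∑ m ∈ range (tot A.J q (pbI A i)), G k (A.st (pbI A i) + m) ^ 2),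
      min_eq_left f2, sum_comm]
    refine sum_congr rfl fun m hm => ?_
    obtain ⟨a3, a4, -⟩ := dec_spec A.J _ _ m (mem_range.1 hm)
    rw [Lay.pan, (Lay.mem_st hf.1 hf.2.1 (mem_range.1 hm)).2, Lay.pb_eq f1 a3 a4]

theorem tOut_ok {L e c h y : ℕ} {S : Scl} {Z : Chk} {v u : ℕ → ℤ} (hS : S.Ok V (2 ^ e))
    (hZ : Z.ok V L (16 * c) = true) (hx : Vec V p K x v) (hy : Vec V p K y u) (hJ : h + J ≤ 16 * c)
    (he : e + 1 ≤ V) (h1 : 2 * 16 * L + 1 < 2 ^ V) (h2 : 16 * (L * K) + 2 ^ (e + 2) ≤ 2 ^ V) :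
    TOk V p J (tOut V p L K e c S Z h x y) (S.c * S.K)
      (fun j m => S.val * (Z.ent V (h + j) 0 * v m + Z.ent V (h + j) 1 * u m)) 1 := by
  simp only [tOut, strict_eq]
  refine (tX_ok (tM_ok hS (mat_ld (c0 := 0) hZ 0 16 (by omega)) le_rfl (mat_two (by omega) hx hy)
    he h1 h2) hJ).congr (fun j _ m _ => ?_) le_rfl
  simp [sum_range_succ]

theorem bits_wgt {U n z k : ℕ} (hd : d ≤ U) (hz : 1 + z < 2 ^ d) (hn : 2 ≤ n) (hk : k < n) :
    bits (wgt U n z) (U * k) d = if k < 2 then 1 + z else 1 := by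
  have hU : 0 < U := by
    rcases d with _ | d
    · simp at hz
    · omega
  obtain ⟨m, rfl⟩ := Nat.exists_eq_add_of_le hn
  have e : (wgt U (2 + m) z : ℤ) = pk U (2 + m) fun k => if k < 2 then 1 + z else 1 := by
    rw [wgt, Nat.add_eq, Nat.mul_eq, Nat.cast_add, Nat.cast_mul, ← pk_const hU, ones_eq hU, pk_split,
      pk_split, add_right_comm, pk_add]
    refine congrArg₂ (· + ·) (pk_congr fun j hj => (if_pos hj).symm) ?_
    rw [pk_congr (w := fun j => if 2 + j < 2 then 1 + (z : ℤ) else 1) fun j _ =>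
      (if_neg (by omega)).symm]
  have := bits_pk hd e (fun j _ => by
    have : (1 : ℤ) + z < 2 ^ d := by exact_mod_cast hz
    split_ifs <;> constructor <;> omega) k hk
  exact_mod_cast this

end Pool.Agent.Lib.KRad
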