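import Pool.Agent.Lib.KRad.Sup

/-!
The radial tables of the Galerkin modes, of the functionals and of the tests.
-/

namespace Pool.Agent.Lib.KRad

open Pool.Agent.Lib.KLA Pool.Agent.Lib.KBlk

noncomputable section

/-- Word lengths. Slots: `W0` (stored tables), `W` (work), `V` (coefficients), `Wx` (single members).
`n` rows per component; the substitution has `16 c` inputs, `nU` rows, scale `2 ^ su`, errors
`NU`, `eU`, norms `LU`. Base functions have scale `2 ^ bx` and error `ex`. Stored tables have offset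
`K0`, entries below `2 ^ b0`, norms `L` and errors `del ≤ 2 ^ c0`. `J` members are treated. -/
structure Pr where
  (W0 W V Wx n c nU su NU eU LU bx ex b1 s2 K0 b0 L c0 del J : Nat)

/-- Another number of members. -/
def Pr.at (P : Pr) (J : Nat) : Pr := { P with J := J }

/-- A family of base functions `0, ..., M` with exponents `E`; the coefficients have offset `K`, the
combinations are divided by `2 ^ s1`. -/
structure Gc where
  (k1 M E K s1 : Nat)

/-- Digit `m` in base `2 ^ 16`. -/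
def dig (E m : Nat) : Nat := Nat.land (Nat.shiftRight E (Nat.mul 16 m)) 65535

/-- Member `m` of a family, divided by `2 ^ dig E m`; zero beyond `M`. -/
def nrm (P : Pr) (G : Gc) (g : Nat → RT) (m : Nat) : RT :=
  cnd (Nat.ble m G.M) (tgt P.Wx 1 (Nat.add P.bx 1) (rnT P.Wx 1 (dig G.E m) (g m)))
    (zer (Nat.shiftLeft 1 (Nat.add P.bx 1)))

/-- `2 ^ bx m! (4 X) ^ k (4 (1 - X)) ^ k1` times the Gegenbauer polynomial. -/
def gg (P : Pr) (k k1 m : Nat) : RT :=
  (fun T : RT => (rec3 P.Wx (fun i => Nat.add (Nat.add i (Nat.mul 2 k)) 4)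
    (fun i => Nat.mul (Nat.add (Nat.add i (Nat.mul 4 k)) 6) (Nat.add i 1)) T
    (sml (Nat.add (Nat.mul 2 k) 3) (st0 T)) m).1)
    (sml (Nat.shiftLeft 1 P.bx) (itr (stm P.Wx 1) (itr st2 one k) k1))

/-- `2 ^ bx (4 (1 - X)) ^ dig I m (256 (1 - X ^ 4)) ^ k (4 X) ^ i`. -/
def ld (P : Pr) (k i I m : Nat) : RT :=
  strict (dig I m) (itr (stm P.Wx 1)
    (sml (Nat.shiftLeft 1 P.bx) (itr (mq P.Wx 1) (itr st2 one i) k)))

/-- The members `j0, ..., j0 + J - 1` of a row with slots of `Ws` bits. -/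
def rowC (P : Pr) (Ws j0 x : Nat) : Nat := sel (Nat.mul 1 Ws) Ws P.W P.J (Nat.mul Ws j0) x

/-- Row `a` of a table stored in groups of eight rows. -/
def rowT (P : Pr) (j0 : Nat) (D : Rows) (a : Nat) : Nat :=
  sel (Nat.mul 8 P.W0) P.W0 P.W P.J
    (Nat.mul P.W0 (Nat.add (Nat.mul 8 j0) (Nat.sub 7 (Nat.mod a 8)))) (strict (Nat.div a 8) D.get)

/-- Combinations of a family with `n` rows, rounded. -/
def cmF (P : Pr) (n : Nat) (G : Gc) (g : Nat → RT) (C : Rows) : RT :=
  tgt P.W P.J P.b1 (rnT P.W P.J G.s1 (cmb P.V P.W P.J C.len (Nat.shiftLeft 1 (Nat.add P.bx 1)) G.K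
    n n P.ex (nrm P G g) C))

/-- The conformal part, as a polynomial in `t`. -/
def cf (P : Pr) (U : Rows) (k : Nat) (G : Gc) (C : Rows) : RT :=
  cnd (Nat.beq C.len 0) zr (tgt P.W P.J P.b1 (rnT P.W P.J P.s2
    (sbs P.V P.W P.J P.c (Nat.shiftLeft 4 P.su) P.nU P.NU P.eU P.LU U
      (cmF P (Nat.mul 16 P.c) G (gg P k G.k1) C))))

/-- The potential of a mode: `(4 X) ^ r` times the conformal part plus the ladder part. -/
def mw (P : Pr) (U : Rows) (k r : Nat) (G : Gc) (C : Rows) (nL I : Nat) (H : Gc) (E : Rows) : RT :=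
  add (itr st2 (cf P U k G C) r) (cmF P nL H (ld P k H.k1 I) E)

/-- Component `s` of a stored table. -/
def cp (P : Pr) (j0 s : Nat) (D : Rows) : RT :=
  lit P.W P.J P.K0 P.n fun a => strict (Nat.add (Nat.mul s P.n) a) (rowT P j0 D)

/-- A stored single table, one row for each coefficient. -/
def cw (P : Pr) (Ws K j0 : Nat) (D : Rows) : RT :=
  lit P.W P.J K D.len fun a => rowC P Ws j0 (D.get a)

/-- The norms of the columns of a stored table. -/
def tbl (P : Pr) (j0 : Nat) (D : Rows) : Bool :=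
  l1 P.W P.J P.b0 0 P.L (Nat.mul P.L (ones P.W P.J))
    ⟨P.K0, Nat.mul 3 P.n, 0, 0, true, rowT P j0 D⟩

/-- `T / 2 ^ s` is close to `m L`. -/
def near (P : Pr) (s m : Nat) (T L : RT) : Bool :=
  (fun (U : RT) (B : Nat) => l1 P.W P.J (Nat.add s P.c0) U.e B (Nat.mul B (ones P.W P.J)) U)
    (add T (neg P.W P.J (sml (Nat.shiftLeft m s) L))) (Nat.shiftLeft (Nat.mul m P.del) s)

/-- `T / 2 ^ s` is at most the digit of `y` (base `2 ^ b`, from `j0` on). -/
def tiny (P : Pr) (s b j0 y : Nat) (T : RT) : Bool :=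
  l1 P.W P.J (Nat.add s b) T.e (Nat.shiftLeft 1 (Nat.add s b))
    (Nat.shiftLeft (sel b b P.W P.J (Nat.mul b j0) y) s) T

/-- Three components; the last two are stored with the factor `v`. -/
def near3 (P : Pr) (j0 v : Nat) (D : Rows) (s0 s1 s2 : Nat) (T0 T1 T2 : RT) : Bool :=
  bnd (bnd (near P s0 1 T0 (cp P j0 0 D)) (near P s1 1 (sml v T1) (cp P j0 1 D)))
    (bnd (near P s2 1 (sml v T2) (cp P j0 2 D)) (tbl P j0 D))

/-- Modes with a toroidal velocity. -/
def mdT (P : Pr) (j0 v k s : Nat) (D : Rows) (w : RT) : Bool :=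
  near3 P j0 v D (Nat.add s 6) (Nat.add s 17) (Nat.add s 10)
    (neg P.W P.J (sml (lk k) (itr st2 w 3))) (neg P.W P.J (itr st2 (lop P.W P.J 2 8 w) 3))
    (st2 (mq P.W P.J w))

/-- Modes with a poloidal velocity. -/
def mdP (P : Pr) (j0 v k s : Nat) (D : Rows) (w : RT) : Bool :=
  (fun b : RT => near3 P j0 v D (Nat.add s 2) (Nat.add s 13) (Nat.add s 28)
    (neg P.W P.J (sml (lk k) (st2 w))) (st2 b)
    (itr st2 (add (lop P.W P.J 2 6 b) (sml (Nat.shiftLeft (lk k) 22) w)) 3))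
    (neg P.W P.J (lop P.W P.J 0 6 w))

/-- Toroidal functionals; the curl is stored with the factor `t ^ u`. -/
def thT (P : Pr) (j0 v k u s : Nat) (D : Rows) (w : RT) : Bool :=
  near3 P j0 v D (Nat.add s (Nat.mul 2 u)) (Nat.add (Nat.add s (Nat.mul 2 u)) 11) (Nat.add s 20)
    (neg P.W P.J (sml (Nat.mul 3 (lk k)) (itr st2 w u)))
    (neg P.W P.J (sml 3 (itr st2 (lop P.W P.J 5 11 w) u)))
    (neg P.W P.J (st2 (mq P.W P.J (lop P.W P.J 4 11 w))))

/-- Meridional functionals. -/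
def thM (P : Pr) (j0 v k u s : Nat) (D : Rows) (w : RT) : Bool :=
  (fun b : RT => near3 P j0 v D (Nat.add s 24) (Nat.add s 35)
    (Nat.add (Nat.add s (Nat.mul 2 u)) 22)
    (sml (lk k) (itr st2 (lop P.W P.J 10 15 w) 7))
    (neg P.W P.J (itr st2 (lop P.W P.J 10 15 b) 7))
    (sml 3 (itr st2 (add (lop P.W P.J 11 15 b) (sml (Nat.shiftLeft (lk k) 22) w)) u)))
    (neg P.W P.J (lop P.W P.J 5 11 w))

/-- `2 ^ 18 (v a - L b / 2 + X ^ 5 q g)`. -/
def nz0 (P : Pr) (v : Nat) (a b g : RT) : RT :=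
  add (add (sml (Nat.shiftLeft v 18) a) (neg P.W P.J (sml 128 (lop P.W P.J 4 8 b))))
    (itr st2 (mq P.W P.J g) 5)

/-- `2 ^ 22 (l (l + 1) w + l c + L (b - L w / 2 - c) / 2)`, `c = X ^ 3 g`. -/
def nz1 (P : Pr) (k : Nat) (w b g : RT) : RT :=
  (fun c : RT => add (add (sml (Nat.shiftLeft (lk k) 22) w)
    (sml (Nat.shiftLeft (Nat.add (Nat.mul 2 k) 2) 16) c))
    (lop P.W P.J 6 10 (add (sml 2048 b) (neg P.W P.J (add (lop P.W P.J 4 10 w) (sml 32 c))))))
    (itr st2 g 3)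

/-- `2 ^ 25` times the first component of a meridional functional, with the other sign. -/
def fa (k : Nat) (w : RT) : RT := sml (Nat.shiftLeft (Nat.mul 3 (lk k)) 11) (itr st2 w 7)

/-- The same for the second component, times `v`. -/
def fb (P : Pr) (v : Nat) (w : RT) : RT := sml (Nat.mul 3 v) (itr st2 (lop P.W P.J 5 11 w) 7)

/-- Class zero: the null pair is the stored pair minus the functional with potential `w`, which has
the scale `2 ^ (s - 25)`; `g` has the scale `2 ^ s`. -/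
def ts0 (P : Pr) (j0 v k s : Nat) (D : Rows) (w g : RT) : Bool :=
  bnd (near P (Nat.add s 18) 1
    (nz0 P v (add (sml (Nat.shiftLeft 1 s) (cp P j0 0 D)) (fa k w))
      (add (sml (Nat.shiftLeft 1 s) (cp P j0 1 D)) (fb P v w)) g) (cp P j0 2 D)) (tbl P j0 D)

/-- Class one: `x` is the stored potential, `w` has the scale `2 ^ (s - 2)`. -/
def ts1 (P : Pr) (j0 v k s s0 : Nat) (D : Rows) (x w g : RT) : Bool :=
  bnd (bnd (near P (Nat.add s0 8) 1 (mq P.W P.J x) (cp P j0 2 D)) (tbl P j0 D))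
    (near P (Nat.add (Nat.add s0 s) 22) v (nz1 P k
      (add (sml (Nat.shiftLeft 1 s) x) (neg P.W P.J (sml (Nat.mul 3 v) (st2 w))))
      (sml (Nat.shiftLeft 1 (Nat.add s0 s)) (cp P j0 1 D)) g) (cp P j0 0 D))

/-- Small tails of class zero (both sides with the other sign). -/
def sm0 (P : Pr) (v k s b j0 y : Nat) (w g : RT) : Bool :=
  tiny P (Nat.add s 43) b j0 y (nz0 P v (fa k w) (fb P v w) g)

/-- Small tails of class one. -/
def sm1 (P : Pr) (v k s b j0 y : Nat) (w g : RT) : Bool :=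
  tiny P (Nat.add s 24) b j0 y (nz1 P k (sml (Nat.mul 3 v) (st2 w)) zr g)

/-- The images of the basis polynomials under the substitution, times `128 ^ k`. -/
def ut (W k : Nat) : RT :=
  (Nat.rec (motive := fun _ => RT × RT) (one, add (sml 128 one) (neg W 1 (itr st2 one 4)))
    (fun _ ih => (ih.2, add (add (sml 256 ih.2) (neg W 1 (sml 2 (itr st2 ih.2 4))))
      (sml 16384 (neg W 1 ih.1)))) k).1

/-- Column `k` of the table of the substitution (the first coefficient is doubled). -/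
def uc (P : Pr) (U : Rows) (k : Nat) : RT :=
  ⟨Nat.shiftLeft 4 P.su, P.nU, 0, 0, true, fun a => cnd (Nat.ble P.nU a) (Nat.shiftLeft 4 P.su)
    (Nat.land (Nat.shiftRight (U.get a) (Nat.mul P.V k)) (low P.V))⟩

/-- The check of column `k`. -/
def uchk (P : Pr) (U : Rows) (k : Nat) : Bool :=
  (fun (T : RT) (s : Nat) => (fun (A : RT) (x y : Nat) =>
    bnd (bnd (l1 P.Wx 1 (Nat.add s P.su) A.e x (Nat.mul x (ones P.Wx 1)) A)
      (l1 P.Wx 1 (Nat.add (Nat.add s P.su) 2) T.e y (Nat.mul y (ones P.Wx 1)) T))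
      (Nat.ble (mx (mx A.N A.n) (mx T.N T.n)) P.NU))
    (add T (neg P.Wx 1 (sml (Nat.shiftLeft 1 s) (uc P U k))))
    (Nat.shiftLeft P.eU s) (Nat.shiftLeft P.LU s))
    (sml (Nat.shiftLeft 1 P.su) (ut P.Wx k)) (Nat.mul 7 k)

end

end Pool.Agent.Lib.KRad
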