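import Pool.Agent.Lib.KRad.Fam
import Pool.Agent.Lib.KRad.Sound

/-!
Loading tables, comparing tables, and the substitution `1 - X ^ 4`.
-/

namespace Pool.Agent.Lib.KRad

open Polynomial Finset Pool.Agent.Lib.KLA Pool.Agent.Lib.KBlk

noncomputable section

/-- Entry `a` of member `j` of a table stored in groups of eight rows. -/
def ug (c : ℕ → ℕ → ℤ) (a j : ℕ) : ℤ := c (a / 8) (8 * j + (7 - a % 8))

theorem grp_ug (c : ℕ → ℕ → ℤ) (k i : ℕ) : grp (ug c) k i = c k i := by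
  unfold grp ug
  congr 1 <;> omega

/-- `D` is a stored table that contains the members `j0, ..., j0 + P.J - 1`. -/
def St (P : Pr) (j0 : ℕ) (D : Rows) (c : ℕ → ℕ → ℤ) : Prop :=
  0 < P.W ∧ 0 < P.W0 ∧ 2 * P.K0 < 2 ^ P.W0 ∧
    ∃ Jt d, Mat P.W0 (8 * Jt) P.K0 d D c ∧ 3 * P.n ≤ 8 * d ∧ j0 + P.J ≤ Jt

/-- Component `s` of member `j`. -/
def tq (P : Pr) (c : ℕ → ℕ → ℤ) (j s : ℕ) : ℝ[X] := tsP P.n fun a => ug c (s * P.n + a) j

/-- Member `j` of the table describes the polynomials `S`. -/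
def Cl (P : Pr) (c : ℕ → ℕ → ℤ) (j : ℕ) (α ν : ℝ) (S : ℕ → ℝ[X]) : Prop :=
  ∑ a ∈ range (3 * P.n), |ug c a j| ≤ P.L ∧ ∀ s < 3, ∀ φ,
    |α * (if s = 0 then 1 else ν) * (S s).eval ((1 + Real.cos φ) / 2)
      - (tq P c j s).eval ((1 + Real.cos φ) / 2)| ≤ P.del

variable {P : Pr} {j0 j s m : ℕ} {D : Rows} {c : ℕ → ℕ → ℤ} {T L : RT} {F G : ℕ → ℝ[X]}

theorem St.row (h : St P j0 D c) {a : ℕ} (ha : a < 3 * P.n) :
    Vec P.W P.J P.K0 (rowT P j0 D a) fun j => ug c a (j0 + j) := by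
  obtain ⟨-, h1, h2, Jt, d, h3, h4, h5⟩ := h
  exact (vec_sel (g := 8) (d := 8 * j0 + (7 - a % 8)) (h3.2 (a / 8) (by omega)) h1 (by norm_num) h2
    fun j hj => by omega).congr fun j _ => by
      unfold ug
      congr 1
      omega

theorem St.cp (h : St P j0 D c) (hs : s < 3) :
    Rep P.W P.J (cp P j0 s D) fun j => tq P c (j0 + j) s :=
  rep_lit h.1 fun a ha => h.row (a := s * P.n + a) (by nlinarith)

theorem mat_rowC {Ws Jt K : ℕ} (h : Mat Ws Jt K m D c) (hW : 0 < Ws) (hK : 2 * K < 2 ^ Ws)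
    (hj : j0 + P.J ≤ Jt) : Mat P.W P.J K m (D.map (rowC P Ws j0)) fun i j => c i (j0 + j) :=
  h.map fun k hk => (vec_sel (g := 1) (h.2 k hk) hW one_pos hK fun j _ => by omega).congr
    fun j _ => by rw [one_mul]

theorem mat_mul {W J K : ℕ} (h : Mat W J K m D c) (r : ℕ) :
    Mat W J (r * K) m (D.map (Nat.mul r)) fun i j => r * c i j :=
  h.map fun k hk => (h.2 k hk).smul r

theorem rep_cw {Ws Jt K : ℕ} (h : Mat Ws Jt K m D c) (hW : 0 < Ws) (hK : 2 * K < 2 ^ Ws)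
    (hj : j0 + P.J ≤ Jt) (h0 : 0 < P.W) :
    Rep P.W P.J (cw P Ws K j0 D) fun j => tsP m fun a => c a (j0 + j) := by
  rw [cw, h.1]
  refine rep_lit h0 fun a ha => ?_
  have := (mat_rowC h hW hK hj).2 a ha
  rwa [get_map _ _ (h.1 ▸ ha)] at this

theorem l1_ones {W J b B : ℕ} (h : Rep W J T F) (hW : 0 < W)
    (hl : l1 W J b T.e B (Nat.mul B (ones W J)) T = true) (hj : j < J) :
    Sm (max T.N T.n) B (F j) := by
  exact_mod_cast h.sm (d := fun _ => B) hl (by rw [pk_const hW, Nat.mul_eq, Nat.cast_mul])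
    (fun _ _ => ⟨by positivity, le_rfl⟩) hj

theorem St.tbl (h : St P j0 D c) (hk : tbl P j0 D = true) (hj : j < P.J) :
    ∑ a ∈ range (3 * P.n), |ug c a (j0 + j)| ≤ P.L := by
  simpa using (l1_sound (d := fun _ => P.L) hk (by rw [pk_const h.1, Nat.mul_eq, Nat.cast_mul])
    fun _ _ => ⟨by positivity, le_rfl⟩).2 _ (fun a ha => h.row ha) j hj

theorem near_sound {A : ℕ → ℝ[X]} (hT : Rep P.W P.J T fun j => C (2 ^ s : ℝ) * A j)
    (hL : Rep P.W P.J L G) (hW : 0 < P.W) (h : near P s m T L = true) (hj : j < P.J) (φ : ℝ) :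
    |(A j).eval ((1 + Real.cos φ) / 2) - m * (G j).eval ((1 + Real.cos φ) / 2)| ≤ m * P.del := by
  have t := (l1_ones (hT.add ((hL.sml _).neg hW)) hW h hj).abs_eval φ
  simp only [shl_eq, eval_add, eval_neg, eval_mul, eval_C, Nat.mul_eq, Nat.cast_mul, Nat.cast_pow,
    Nat.cast_ofNat] at t
  refine le_of_mul_le_mul_right (le_of_eq_of_le ?_ t) (by positivity)
  rw [← abs_of_pos (show (0 : ℝ) < 2 ^ s by positivity), ← abs_mul, abs_of_pos (a := 2 ^ s)]
  · congr 1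
    ring
  · positivity

theorem near3_sound {v s0 s1 s2 : ℕ} {T0 T1 T2 : RT} {α : ℝ} {S : ℕ → ℕ → ℝ[X]} (hD : St P j0 D c)
    (h0 : Rep P.W P.J T0 fun j => C (2 ^ s0 : ℝ) * (C α * S j 0))
    (h1 : Rep P.W P.J T1 fun j => C (2 ^ s1 : ℝ) * (C α * S j 1))
    (h2 : Rep P.W P.J T2 fun j => C (2 ^ s2 : ℝ) * (C α * S j 2))
    (h : near3 P j0 v D s0 s1 s2 T0 T1 T2 = true) (hj : j < P.J) : Cl P c (j0 + j) α v (S j) := by
  simp only [near3, bnd_iff] at h
  have t : ∀ {T s i}, (Rep P.W P.J T fun j => C (2 ^ s : ℝ) * (C α * S j i)) →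
      Rep P.W P.J (sml v T) fun j => C (2 ^ s : ℝ) * (C (α * v) * S j i) := fun k =>
    (k.sml v).congr fun _ _ => by
      rw [C_mul]
      ring
  refine ⟨hD.tbl h.2.2 hj, fun s hs φ => ?_⟩
  interval_cases s
  · simpa using near_sound h0 (hD.cp (by norm_num)) hD.1 h.1.1 hj φ
  · simpa using near_sound (t h1) (hD.cp (by norm_num)) hD.1 h.1.2 hj φ
  · simpa using near_sound (t h2) (hD.cp (by norm_num)) hD.1 h.2.1 hj φ

theorem tiny_sound {A : ℕ → ℝ[X]} {b y : ℕ} (hT : Rep P.W P.J T fun j => C (2 ^ s : ℝ) * A j)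
    (hb : 0 < b) (h : tiny P s b j0 y T = true) (hj : j < P.J) (φ : ℝ) :
    |(A j).eval ((1 + Real.cos φ) / 2)| ≤ bits y (b * (j0 + j)) b := by
  have t := (hT.sm (d := fun j => 2 ^ s * bits y (b * j0 + b * j) b) h (by
    rw [shl_eq, Nat.cast_mul, sel_eq hb le_rfl, mul_comm, pk_mul]
    rfl) (fun j _ => ⟨by positivity, by
      rw [shl_eq, one_mul, Nat.add_eq, pow_add]
      exact_mod_cast Nat.mul_le_mul_left _ (bits_lt _ _ _).le⟩) hj).abs_eval φ
  rw [eval_mul, eval_C, abs_mul, abs_of_pos (by positivity), ← mul_add] at t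
  push_cast at t
  exact le_of_mul_le_mul_left t (by positivity)

/-- The factor of base function `i`. -/
def cG (G : Gc) (col : ℕ → ℤ) (i : ℕ) : ℝ :=
  if i ≤ G.M then col i / 2 ^ dig G.E i / 2 ^ G.s1 else 0

theorem rep_cmF {n : ℕ} {H : Gc} {g : ℕ → RT} {f : ℕ → ℝ[X]} (hW : 0 < P.W)
    (hg : ∀ i, Rep P.Wx 1 (g i) fun _ => f i) (hD : Mat P.W P.J H.K m D c) :
    Rep P.W P.J (cmF P n H g D) fun j => ∑ i ∈ range m, C (cG H (c · j) i) * f i := by
  have t : ∀ i, Rep P.Wx 1 (nrm P H g i) fun _ =>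
      if i ≤ H.M then C (1 / 2 ^ dig H.E i : ℝ) * f i else 0 := fun i => by
    simp only [nrm, cnd_eq, Nat.ble_eq]
    split_ifs
    · exact ((hg i).rnT _).tgt _
    · exact rep_zer _
  rw [cmF, hD.1]
  refine (((Rep.cmb hW (fun i _ => t i) hD).rnT _).tgt _).congr fun j _ => ?_
  rw [mul_sum]
  refine sum_congr rfl fun i _ => ?_
  unfold cG
  split_ifs
  · rw [← mul_assoc, ← mul_assoc, ← C_mul, ← C_mul]
    congr 2
    ring
  · simp

theorem rep_ld {k i I : ℕ} (hW : 0 < P.Wx) (m : ℕ) : Rep P.Wx 1 (ld P k i I m) fun _ =>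
    (4 * (1 - X)) ^ dig I m * (C (2 ^ P.bx : ℝ) * ((256 * (1 - X ^ 4)) ^ k * (4 * X) ^ i)) :=
  (Rep.itr (fun h => h.stm hW) ((Rep.itr (fun h => h.mq hW) (rep_one.pw i) k).sml _) _).congr
    fun _ _ => by rw [shl_eq, one_mul, mul_one, Nat.cast_pow, Nat.cast_ofNat]

theorem TS_q (k : ℕ) : (TS (k + 2)).comp (1 - X ^ 4) =
    (2 - 4 * X ^ 4) * (TS (k + 1)).comp (1 - X ^ 4) - (TS k).comp (1 - X ^ 4) := by
  have := congrArg (·.comp (1 - X ^ 4 : ℝ[X])) (TS_mul (k + 1))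
  simp only [pr, Nat.succ_ne_zero, if_false, Nat.add_sub_cancel, mul_comp, sub_comp, add_comp,
    X_comp, ofNat_comp, Nat.cast_ofNat] at this
  linear_combination -this

theorem rep_ut {W : ℕ} (hW : 0 < W) (k : ℕ) :
    Rep W 1 (ut W k) fun _ => 128 ^ k * (TS k).comp (1 - X ^ 4) := by
  suffices ∀ k : ℕ, (fun p : RT × RT => (Rep W 1 p.1 fun _ => 128 ^ k * (TS k).comp (1 - X ^ 4)) ∧
      Rep W 1 p.2 fun _ => 128 ^ (k + 1) * (TS (k + 1)).comp (1 - X ^ 4))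
      (Nat.rec (motive := fun _ => RT × RT) (one, add (sml 128 one) (neg W 1 (itr st2 one 4)))
        (fun _ ih => (ih.2, add (add (sml 256 ih.2) (neg W 1 (sml 2 (itr st2 ih.2 4))))
          (sml 16384 (neg W 1 ih.1)))) k) from (this k).1
  intro k
  induction k with
  | zero =>
    refine ⟨rep_one.congr fun _ _ => by simp [TS_zero],
      ((rep_one.sml 128).add ((rep_one.pw 4).neg hW)).congr fun _ _ => ?_⟩
    simp only [TS, Nat.cast_ofNat, map_ofNat, zero_add, Nat.cast_one, Chebyshev.T_one, X_comp,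
      sub_comp, mul_comp, ofNat_comp, one_comp]
    ring
  | succ k ih =>
    refine ⟨ih.2, (((ih.2.sml 256).add (((ih.2.pw 4).sml 2).neg hW)).add
      ((ih.1.neg hW).sml 16384)).congr fun _ _ => ?_⟩
    simp only [TS_q, Nat.cast_ofNat, map_ofNat]
    ring

/-- The check of the table of the substitution. -/
theorem sub_of {U : Rows} {u : ℕ → ℕ → ℤ} (hU : Mat P.V (16 * P.c) (4 * 2 ^ P.su) m U u)
    (hm : P.nU ≤ m) (hV : 2 * (4 * 2 ^ P.su) < 2 ^ P.V) (hW : 0 < P.Wx)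
    (h : ∀ k < 16 * P.c, uchk P U k = true) :
    Sub P.V (16 * P.c) (Nat.shiftLeft 4 P.su) P.nU P.NU P.eU P.LU U (2 ^ P.su) (1 - X ^ 4) := by
  rw [shl_eq]
  refine ⟨u, fun a ha => hU.2 a (by omega), fun k hk => ?_⟩
  have t := h k hk
  simp only [uchk, bnd_iff, mx_eq, Nat.ble_eq] at t
  have h1 : Rep P.Wx 1 (uc P U k) fun _ => pol P.nU fun a => u a k := fun _ => by
    refine ⟨fun a _ => if a < P.nU then u a k else 0, fun a => ?_,
      fun a ha j _ => if_neg (not_lt.2 ha), fun j _ => Sm.zero.congr (sub_eq_zero.2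
        (pol_congr fun a ha => by simp [show a < P.nU from ha])) (by simp [uc])⟩
    simp only [uc, cnd_eq, Nat.ble_eq, shl_eq, land_shr, Nat.mul_eq]
    by_cases ha : a < P.nU
    · simp only [if_pos ha, if_neg ha.not_ge]
      exact ⟨by simpa [pk] using (hU.2 a (by omega)).ent hV hk,
        fun _ _ => (hU.2 a (by omega)).2 k hk⟩
    · simp [ha, not_lt.1 ha, Vec, pk]
  have h2 := (rep_ut hW k).sml (Nat.shiftLeft 1 P.su)
  have e : ∀ {N : ℕ} {x : ℕ} {A B : ℝ[X]}, Sm N (Nat.shiftLeft x (Nat.mul 7 k) : ℕ) A →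
      N ≤ P.NU → A = 128 ^ k * B → Sm P.NU x B := fun {N x A B} k1 k2 k3 => by
    have k4 : (128 : ℝ[X]) ^ k = C (128 ^ k : ℝ) := by simp [map_ofNat]
    refine ((k1.deg k2).cmul (1 / 128 ^ k)).congr ?_ (le_of_eq ?_)
    · rw [k3, k4, ← mul_assoc, ← C_mul, one_div_mul_cancel (by positivity), C_1, one_mul]
    · rw [abs_of_pos (by positivity), shl_eq, Nat.mul_eq, pow_mul]
      push_cast
      field_simp
  refine ⟨e (l1_ones (h2.add ((h1.sml _).neg hW)) hW t.1.1 one_pos)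
    ((le_max_left _ _).trans t.2) ?_, e (l1_ones h2 hW t.1.2 one_pos)
    ((le_max_right _ _).trans t.2) ?_⟩
  · simp only [shl_eq, Nat.mul_eq, pow_mul, one_mul, Nat.cast_pow, Nat.cast_ofNat, map_pow,
      map_ofNat]
    ring_nf
  · simp only [shl_eq, one_mul, Nat.cast_pow, Nat.cast_ofNat]
    ring

end

end Pool.Agent.Lib.KRad
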