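import Pool.Agent.Lib.KRad.Sup

/-!
Sums of squares of the rows of a term, by bit planes.
-/

namespace Pool.Agent.Lib.KRad

open Pool.Agent.Lib.KLA Pool.Agent.Lib.KBlk

noncomputable section

/-- The squares of the digits, from the first `n` of their `d` bits. -/
def vsq (W p d x n : Nat) : Nat :=
  Nat.rec (motive := fun _ => Nat) 0 (fun i ih => Nat.add ih (Nat.shiftLeft
    (Nat.land x (Nat.mul (low d) (Nat.land (Nat.shiftRight x i) (msk W 1 p)))) i)) n

/-- The second argument; the first one makes the terms of different rows look different. -/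
def slt (_j x : Nat) : Nat := x

/-- The squares of the rows `a, ..., a + q - 1`, cut to `d - 1` bits, added to the last argument,
are at most `B`. -/
def froA (W p K s d : Nat) (T : Trm) (a B q : Nat) : Nat → Bool :=
  Nat.rec (motive := fun _ => Nat → Bool) (fun acc => Nat.ble acc B)
    (fun m ih acc => strict (Nat.add a m) fun j => T j 0 fun x =>
      tight W p K (Nat.add s d) x fun y =>
      strict (Nat.add (rnd W s 0 p (vabs W (Nat.add s d) p y)) (Nat.mul 2 (ones W p))) fun z =>
        strict (Nat.add acc (dsum W (vsq W p (Nat.add d 1) (slt j z) (Nat.add d 1)))) ih) q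

/-- The same on the columns of panel `i / G`, for the group `i % G` of `R` rows among the first `n`
rows. -/
def froP (V K s d R G : Nat) (A : Lay) (T : Nat → Nat → Nat → Nat → Trm) (n : Nat → Nat)
    (B : List Nat) (i : Nat) : Bool :=
  strict (pbI A (Nat.div i G)) fun b => strict (Nat.sub (pbI A (Nat.add (Nat.div i G) 1)) b) fun q =>
    strict (tot A.J q b) fun p => strict (Nat.mul R (Nat.mod i G)) fun a =>
      strict (n (A.pb b)) fun m => strict (Nat.sub (Nat.sub m a) (Nat.sub (Nat.sub m a) R)) fun r =>
        bnd (bnd (bnd (A.fit b q) (Nat.ble m (Nat.mul R G)))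
          (Nat.ble (Nat.add (Nat.shiftLeft p (Nat.add (Nat.mul 2 d) 2)) 2) (Nat.shiftLeft 1 V)))
          (froA V p K s d (T b q a r) 0 (lget B i) r 0)

/-- The first two entries of row `h + j` of `Z` times the vectors `x` and `y`. -/
def tOut (V p L K e c : Nat) (S : Scl) (Z : Chk) (h x y : Nat) : Trm :=
  strict x fun x => strict y fun y => strict h fun h =>
    tX h (tM V p 16 L K e S (KBlk.ld V L 0 16 0 c Z) (two x y (Nat.mul K (ones V p))))

/-- The weights `1 + z, 1 + z, 1, 1, ...`. -/
def wgt (U n z : Nat) : Nat := Nat.add (ones U n) (Nat.mul z (ones U 2))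

end

end Pool.Agent.Lib.KRad
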