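import Pool.Agent.Lib.KRad.Defs
import Pool.Agent.Lib.KBlk.Lay

/-!
Bounds for every member of a table, and weighted sums of absolute values of a stored matrix.
-/

namespace Pool.Agent.Lib.KRad

open Pool.Agent.Lib.KLA

noncomputable section

/-- The sine coefficients of twice the sine times the members. -/
def sn (W J : Nat) (T : RT) : RT :=
  (fun z : Nat => (⟨Nat.mul 2 T.K, Nat.add T.n 1, T.N, Nat.mul 2 T.e, T.ok, fun a =>
    Nat.sub (Nat.add (Nat.rec (motive := fun _ => Nat) (T.f 1) (fun m _ => T.f m) a) z)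
      (strict (Nat.add a 1) T.f)⟩ : RT)) (Nat.mul (Nat.mul 2 T.K) (ones W J))

/-- `r` times the norm of member `j` is at most `2 ^ q` times digit `j` of `x`; the digits are at
most `2 K`. -/
def l1v (W J b q r K x : Nat) (T : RT) : Bool :=
  (fun U : RT => bnd (bnd U.ok (Nat.ble (Nat.add (Nat.shiftLeft (Nat.mul 2 K) q)
      (Nat.mul r (Nat.add (Nat.shiftLeft U.n b) (Nat.add U.n U.e)))) (Nat.shiftLeft 1 (Nat.sub W 1))))
    (small (Nat.shiftLeft x q) (Nat.mul r (Nat.add (sumF (fun a => vabs W b J (U.f a)) U.n)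
      (Nat.mul (Nat.add U.n U.e) (ones W J)))) (msk W (Nat.sub W 1) J))) (tgt W J b T)

/-- `4 (-a + b (1 - X) + 4 X (1 - X) ∂)`. -/
def ls (W J a b : Nat) (T : RT) : RT :=
  add (add (sml b (stm W J T)) (sml 4 (eul W J T))) (sml (Nat.mul 4 a) (neg W J T))

/-- `l (l + 1)` for `l = 2 k + 2`. -/
def lk (k : Nat) : Nat := Nat.mul (Nat.add (Nat.mul 2 k) 2) (Nat.add (Nat.mul 2 k) 3)

/-- The check for the class one. -/
def pw1 (W J k b q K x : Nat) (T : RT) : Bool :=
  bnd (l1v W J b q (Nat.mul 128 (lk k)) K x (sn W J T))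
    (l1v W J b q (Nat.mul 32 (Nat.add k 1)) K x (sn W J (ls W J 5 11 T)))

/-- The check for the class zero. -/
def pw0 (W J k b q K x : Nat) (T : RT) : Bool :=
  l1v W J b q (Nat.add k 1) K x (stm W J (stm W J (add (sml (Nat.mul 64 (lk k)) T)
    (neg W J (ls W J 11 15 (ls W J 5 11 T))))))

/-- The columns of absolute values of `D` (offset `K`), weighted by the `d`-bit digits of `s` (slots
of `V` bits), cut by `t` bits, squared and added. -/
def colq (V W p m n K e d t : Nat) (D : Rows) (s : Nat) : Nat :=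
  strict (ones W p) fun o => strict (Nat.mul (Nat.sub (Nat.shiftLeft 1 e) K) o) fun z =>
    strict (Nat.add (rnd W t 0 p (dot V (D.map fun r => Nat.add (vabs W e p (Nat.add r z)) o)
      (Nat.land s (msk V d n)))) o) fun y => dsum W (had W m y y)

/-- The check for the `J` members of a block of class `c`, whose bounds are the `d`-bit digits
`o, ..., o + J - 1` of `s` (slots of `V` bits). -/
def pwB (V W J d b q c k o s : Nat) (T : RT) : Bool :=
  strict (sel V d W J (Nat.mul V o) s) fun x => strict (Nat.shiftLeft 1 (Nat.sub d 1)) fun K =>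
    cnd (Nat.beq c 0) (pw0 W J k b q K x T) (pw1 W J k b q K x T)

/-- The first angular index of panel `i`. -/
def pbI (A : KBlk.Lay) (i : Nat) : Nat :=
  Nat.add A.b0 (Nat.sub (Nat.mul A.q i) (Nat.sub (Nat.mul A.q i) A.nq))

/-- The value of `colq` on panel `i` of a matrix with `16 * c` rows is at most entry `i` of `B`. -/
def pwP (U V K e d t w c : Nat) (A : KBlk.Lay) (Z : Nat → KBlk.Chk) (s : Nat) (B : List Nat)
    (i : Nat) : Bool :=
  strict (pbI A i) fun b => strict (Nat.sub (pbI A (Nat.add i 1)) b) fun q =>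
    strict (KBlk.tot A.J q b) fun p => bnd (bnd (bnd (A.fit b q)
      ((Z (A.pb b)).ok V K (Nat.mul 16 c)))
      (Nat.ble (Nat.add (Nat.mul p (Nat.pow (Nat.add (Nat.shiftLeft 1 w) 1) 2)) 2)
        (Nat.shiftLeft 1 V)))
      (Nat.ble (colq U V p (Nat.add (Nat.div p 16) 1) (Nat.mul 16 c) K e d t
        (KBlk.ldT V K A Z b q 0 c) s) (lget B i))

/-- The same for a matrix with two columns. -/
def pwZ (U V K e d t c : Nat) (Z : KBlk.Chk) (s B : Nat) : Bool :=
  bnd (Z.ok V K (Nat.mul 16 c))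
    (Nat.ble (colq U V 2 1 (Nat.mul 16 c) K e d t (KBlk.ld V K 0 2 0 c Z) s) B)

end

end Pool.Agent.Lib.KRad
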