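import Pool.Agent.Lib.KRad.Fam
import Pool.Agent.Lib.KBlk.Vr
import Pool.Agent.Lib.KBlk.Lay

/-!
The checks of the blocks of the families.
-/

namespace Pool.Agent.Lib.KRad

open Pool.Agent.Lib.KLA Pool.Agent.Lib.KBlk

/-- Coefficients of the base functions `0, ..., M` with exponents `E` and scale `2 ^ z`: `16 c` rows
with entries below `2 ^ (B - 1)` in slots of `Ws` bits. The scale of the check is `2 ^ s`, the
largest scale of the sums is `2 ^ m`. -/
structure Cm where
  (M E z c Ws B s m : Nat)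
  (T : Vr)

/-- A block of modes: conformal part `A` and ladder part `H` (`nL` rows). -/
structure Mb where
  (k1 r i I nL : Nat)
  (A H : Cm)

/-- A block of tests: conformal part `G`, potential `w` (scale `w.s`), scale `s` for the last
members. -/
structure Tb where
  (s : Nat)
  (G w : Cm)

noncomputable section

/-- One more side condition. -/
def okR (b : Bool) (T : RT) : RT := ⟨T.K, T.n, T.N, T.e, bnd b T.ok, T.f⟩

def Cm.K (A : Cm) : Nat := Nat.shiftLeft 1 (Nat.sub A.B 1)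

def Cm.fit (A : Cm) : Bool := bnd (Nat.ble 1 A.B) (Nat.ble (Nat.add A.B 1) A.Ws)

/-- The first `p` columns. -/
def Cm.raw (A : Cm) (p : Nat) : Rows := vld A.Ws A.B p A.c A.T

/-- The columns `j0, ..., j0 + P.J - 1`. -/
def Cm.ld (A : Cm) (P : Pr) (j0 : Nat) : Rows := (A.raw (Nat.add j0 P.J)).map (rowC P A.Ws j0)

/-- The conformal part with the scale `2 ^ t`; the coefficients `D` have the scale `2 ^ z`. -/
def Cm.cf (A : Cm) (P : Pr) (U : Rows) (k k1 K z t : Nat) (D : Rows) : RT :=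
  strict (Nat.add z (Nat.add (Nat.add P.bx P.su) 1)) fun x => strict (Nat.add P.s2 t) fun y =>
    strict (Nat.sub x y) fun s =>
      okR (bnd A.fit (Nat.ble y x)) (KRad.cf P U k ⟨k1, A.M, A.E, K, s⟩ D)

def Cm.pt (A : Cm) (P : Pr) (U : Rows) (k k1 t j0 : Nat) : RT :=
  strict (Nat.sub t A.m) fun h =>
    sml (Nat.shiftLeft 1 h) (A.cf P U k k1 A.K A.z (Nat.sub t h) (A.ld P j0))

/-- The ladder part with the scale `2 ^ t`. -/
def Cm.lad (A : Cm) (P : Pr) (n k i I t j0 : Nat) : RT :=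
  cnd (Nat.beq A.c 0) zr (strict (Nat.add A.z P.bx) fun x => strict (Nat.sub x t) fun s =>
    okR (bnd A.fit (Nat.ble t x)) (cmF P n ⟨i, A.M, A.E, A.K, s⟩ (KRad.ld P k i I) (A.ld P j0)))

/-- No coefficients, or degree `M + d ≤ n`. -/
def Cm.deg (A : Cm) (d n : Nat) : Bool := cnd (Nat.beq A.c 0) true (Nat.ble (Nat.add A.M d) n)

/-- Entry `j` is multiplied by `β j ≤ B`. -/
def mulC (W J K B : Nat) (β : Nat → Nat) (x : Nat) : Nat :=
  pack W (fun j => Nat.add (Nat.mul (β j) (Nat.land (Nat.shiftRight x (Nat.mul W j)) (low W)))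
    (Nat.mul (Nat.sub B (β j)) K)) J

/-- The conformal part, member `j` times `β j / 2 ^ u`. -/
def Cm.bt (A : Cm) (P : Pr) (U : Rows) (k t j0 u B : Nat) (β : Nat → Nat) : RT :=
  okR (bnd (allR (fun j => bnd (Nat.ble 1 (β j)) (Nat.ble (β j) B)) 0 P.J) (Nat.ble A.Ws P.W))
    (A.cf P U k k (Nat.mul B A.K) (Nat.add A.z u) t ((A.ld P j0).map (mulC P.W P.J A.K B β)))

/-- `f` on `P.at q`, `b - 1`, `2 b + 1`, if `1 ≤ b`. -/
def onB (P : Pr) (b q : Nat) (f : Pr → Nat → Nat → Bool) : Bool :=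
  bnd (Nat.ble 1 b) (strict (Nat.sub b 1) fun k => strict (Nat.add (Nat.mul 2 b) 1) fun v =>
    f (P.at q) k v)

/-- The members `j0, ..., j0 + q - 1` of the block `(b, c)` of modes; tables have scale `2 ^ a`. -/
def mdC (P : Pr) (U : Rows) (a : Nat) (J : Nat → Nat → Nat) (Md : Nat → Nat → Mb)
    (R : Nat → Nat → Rows) (b c j0 q : Nat) : Bool :=
  bnd (Nat.ble (Nat.add j0 q) (J b c)) (onB P b q fun P k v => (fun A : Mb =>
    strict (Nat.add A.A.s (Nat.mul 2 A.r)) fun s =>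
      cnd (Nat.beq c 0) (mdT P j0 v k s (R b c)) (mdP P j0 v k s (R b c))
        (add (itr st2 (A.A.pt P U k A.k1 (Nat.add A.A.s a) j0) A.r)
          (A.H.lad P A.nL k A.i A.I (Nat.add s a) j0))) (Md b c))

/-- The same for the functionals. -/
def thC (P : Pr) (U : Rows) (a n : Nat) (J : Nat → Nat → Nat) (Th : Nat → Nat → Cm)
    (R : Nat → Nat → Rows) (b c j0 q : Nat) : Bool :=
  bnd (Nat.ble (Nat.add j0 q) (J b c)) (onB P b q fun P k v => (fun A : Cm =>
    bnd (Nat.ble (Nat.add (Nat.add A.M v) 2) (Nat.add n (Nat.mul 2 c)))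
      (cnd (Nat.beq c 0) (thM P j0 v k 10 A.s (R b c)) (thT P j0 v k 4 A.s (R b c))
        (A.pt P U k k (Nat.add A.s a) j0))) (Th b c))

/-- The size of a block, zero outside the family. -/
def jz (A : Lay) (b c : Nat) : Nat :=
  cnd (bnd (Nat.ble A.b0 b) (Nat.ble (Nat.add b 1) (Nat.add A.b0 A.nq))) (A.J b c) 0

/-- Tests in terms of the potential `w` of the functional that is subtracted. -/
def tsW (P : Pr) (U : Rows) (a n : Nat) (A : Tb) (D : Rows) (c j0 k v s : Nat) (w : RT) : Bool :=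
  bnd (A.G.deg v (Nat.add (Nat.add n c) 1)) (cnd (Nat.beq c 0)
    (ts0 P j0 v k (Nat.add s 25) D w (A.G.pt P U k k (Nat.add (Nat.add s 25) a) j0))
    (bnd (bnd (Nat.ble A.w.s (Nat.add s 2)) A.w.fit)
      (ts1 P j0 v k (Nat.sub (Nat.add s 2) A.w.s) A.w.s D
        (cw P A.w.Ws A.w.K j0 (A.w.raw (Nat.add j0 P.J))) w
        (A.G.pt P U k k (Nat.add (Nat.add s 2) a) j0))))

/-- The same for the tests; the last `Js b c` members belong to the first functionals, with the
factors `β b c m / 2 ^ u`. -/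
def tsC (P : Pr) (U : Rows) (a n u B : Nat) (J Js : Nat → Nat → Nat) (β : Nat → Nat → Nat → Nat)
    (Th : Nat → Nat → Cm) (Te : Nat → Nat → Tb) (R : Nat → Nat → Rows) (b c j0 q : Nat) : Bool :=
  bnd (Nat.ble (Nat.add j0 q) (J b c)) (cnd (Nat.beq b 0) (tbl (P.at q) j0 (R b c))
    (onB P b q fun P k v => strict (Nat.sub (J b c) (Js b c)) fun o => (fun A : Tb =>
      cnd (Nat.ble (Nat.add j0 q) o) (tsW P U a n A (R b c) c j0 k v A.G.s zr)
        (bnd (Nat.ble o j0) (strict (Nat.sub j0 o) fun i => tsW P U a n A (R b c) c j0 k v A.s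
          ((Th b c).bt P U k (Nat.add A.s a) i u B fun j => β b c (Nat.add i j))))) (Te b c)))

/-- The tails of the functionals after the first `Js b c` are small. -/
def smC (P : Pr) (U : Rows) (a n d : Nat) (Js : Nat → Nat → Nat) (Th Sm : Nat → Nat → Cm)
    (y : Nat → Nat → Nat) (b c j0 q : Nat) : Bool :=
  cnd (Nat.ble (Nat.add j0 q) (Js b c)) true (onB P b q fun P k v => (fun (A : Cm) (w : Nat → RT) =>
    bnd (A.deg v (Nat.add (Nat.add n c) 1)) (cnd (Nat.beq c 0)
      (sm0 P v k A.s d j0 (y b c) (w A.s) (A.pt P U k k (Nat.add (Nat.add A.s 25) a) j0))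
      (sm1 P v k A.s d j0 (y b c) (w A.s) (A.pt P U k k (Nat.add (Nat.add A.s 2) a) j0))))
    (Sm b c) fun s => (Th b c).pt P U k k (Nat.add s a) j0)

/-- The denominator of the bound. -/
def dnS (b c : Nat) : Nat :=
  Nat.mul (Nat.add (Nat.mul 4 b) 1)
    (cnd (Nat.beq c 0) 1 (Nat.mul (Nat.add (Nat.mul 2 b) 1) (Nat.add (Nat.mul 2 b) 1)))

/-- The squares of the digits of a block. -/
def sqS (d y J n : Nat) : Nat :=
  strict y fun y => Nat.add (Nat.div (sumF (fun m =>
    strict (Nat.land (Nat.shiftRight y (Nat.mul d m)) (low d)) fun x => Nat.mul x x) J) n) 1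

/-- The sum over all blocks. -/
def smS (d : Nat) (A : Lay) (y : Nat → Nat → Nat) : Nat :=
  sumF (fun i => strict (Nat.add A.b0 i) fun b =>
    Nat.add (sqS d (y b 0) (A.J b 0) (dnS b 0)) (sqS d (y b 1) (A.J b 1) (dnS b 1))) A.nq

end

end Pool.Agent.Lib.KRad
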